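import Mathlib

set_option autoImplicit false

/-! # Extending homomorphisms into finite `p`-groups

`G` is a topological group, `Z i` subgroups, `g l` elements. Hypotheses: homomorphisms `Z i → ℤ/p`
and values at the `g l` can be prescribed (`H1`), and a 2-cocycle of `G` with values in `ℤ/p` which
comes from a finite quotient is a coboundary if it is one on every `Z i` (`LG`). Then homomorphisms
into every finite `p`-group can be prescribed. -/

namespace Pool.Agent.Helper59.EA

variable {G : Type} [Group G] [TopologicalSpace G]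

/-- `c` is a 2-cocycle with values in `ℤ/p` which factors through `G/N` -/
def IsCoc (p : ℕ) (N : Subgroup G) (c : G → G → ZMod p) : Prop :=
  (∀ x y z : G, c x y + c (x * y) z = c y z + c x (y * z)) ∧
    ∀ x y : G, ∀ n ∈ N, ∀ m ∈ N, c (x * n) (y * m) = c x y

/-- the restriction of `c` to `H` is a coboundary -/
def CobOn (p : ℕ) (H : Subgroup G) (c : G → G → ZMod p) : Prop :=
  ∃ ρ : H → ZMod p, IsLocallyConstant ρ ∧ ∀ x y : H, c x y = ρ x + ρ y - ρ (x * y)

/-- `c` is a coboundary -/
def Cob (p : ℕ) (c : G → G → ZMod p) : Prop :=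
  ∃ ρ : G → ZMod p, IsLocallyConstant ρ ∧ ∀ x y : G, c x y = ρ x + ρ y - ρ (x * y)

/-- the local-global principle for cocycles -/
def LG (p : ℕ) {I : Type} (Z : I → Subgroup G) : Prop :=
  ∀ N : Subgroup G, N.Normal → IsOpen (N : Set G) → ∀ c : G → G → ZMod p, IsCoc p N c →
    (∀ i, CobOn p (Z i) c) → Cob p c

/-- prescribing homomorphisms to `ℤ/p` -/
def H1 (p : ℕ) {I κ : Type} (Z : I → Subgroup G) (g : κ → G) : Prop :=
  ∀ f : (i : I) → Z i →* Multiplicative (ZMod p), (∀ i, IsOpen ((f i).ker : Set (Z i))) →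
    ∀ t : κ → Multiplicative (ZMod p), ∃ χ : G →* Multiplicative (ZMod p),
      IsOpen (χ.ker : Set G) ∧ (∀ i, ∀ x : Z i, χ (x : G) = f i x) ∧ ∀ l, χ (g l) = t l

/-- a homomorphism with open kernel is locally constant -/
lemma isLocallyConstant_of_ker [IsTopologicalGroup G] {P : Type} [Group P] (f : G →* P)
    (hf : IsOpen (f.ker : Set G)) : IsLocallyConstant (f : G → P) := by
  rw [IsLocallyConstant.iff_exists_open]
  intro x
  refine ⟨(fun y => x⁻¹ * y) ⁻¹' (f.ker : Set G), hf.preimage (continuous_const.mul continuous_id),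
    ?_, ?_⟩
  · simp
  · intro y hy
    have h : f (x⁻¹ * y) = 1 := hy
    rw [map_mul, map_inv, inv_mul_eq_one] at h
    exact h.symm

lemma ker_isOpen_of_isLocallyConstant {P : Type} [Group P] (f : G →* P)
    (hf : IsLocallyConstant (f : G → P)) : IsOpen (f.ker : Set G) :=
  hf.isOpen_fiber 1

lemma exists_center {p : ℕ} [Fact p.Prime] {P : Type} [Group P] [Finite P] {k : ℕ}
    (hP : Nat.card P = p ^ (k + 1)) : ∃ ι : Multiplicative (ZMod p) →* P,
      Function.Injective ι ∧ (∀ (a : Multiplicative (ZMod p)) (x : P), ι a * x = x * ι a) ∧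
        ι.range.Normal ∧ Nat.card (P ⧸ ι.range) = p ^ k := by
  have hp : p.Prime := Fact.out
  have hPp : IsPGroup p P := IsPGroup.of_card hP
  have hnt : Nontrivial P := by
    rw [← Finite.one_lt_card_iff_nontrivial, hP]
    exact Nat.one_lt_pow (by omega) hp.one_lt
  have hc : Nontrivial (Subgroup.center P) := hPp.center_nontrivial
  have hdvd : p ∣ Nat.card (Subgroup.center P) := by
    have h1 : IsPGroup p (Subgroup.center P) := hPp.to_subgroup _
    obtain ⟨m, hm⟩ := IsPGroup.iff_card.mp h1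
    have h2 : 1 < Nat.card (Subgroup.center P) := Finite.one_lt_card
    rw [hm] at h2 ⊢
    have : m ≠ 0 := by
      rintro rfl
      simp at h2
    exact dvd_pow_self p this
  obtain ⟨c, hcp⟩ := exists_prime_orderOf_dvd_card' (G := Subgroup.center P) p hdvd
  have hcp' : orderOf (c : P) = p := by rw [Subgroup.orderOf_coe, hcp]
  have hC : Nat.card (Subgroup.zpowers (c : P)) = p := by rw [Nat.card_zpowers, hcp']
  have he : Nonempty (Multiplicative (ZMod p) ≃* Subgroup.zpowers (c : P)) := by
    have h : Multiplicative (ZMod (Nat.card (Subgroup.zpowers (c : P)))) ≃*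
      Subgroup.zpowers (c : P) := zmodCyclicMulEquiv inferInstance
    rw [hC] at h
    exact ⟨h⟩
  obtain ⟨e⟩ := he
  have hrange : ((Subgroup.zpowers (c : P)).subtype.comp (e : Multiplicative (ZMod p) →* _)).range =
      Subgroup.zpowers (c : P) := by
    ext x
    constructor
    · rintro ⟨a, rfl⟩
      exact (e a).2
    · intro hx
      exact ⟨e.symm ⟨x, hx⟩, by simp⟩
  have hcen : Subgroup.zpowers (c : P) ≤ Subgroup.center P := by
    rw [Subgroup.zpowers_le]
    exact c.2
  have hnorm : (Subgroup.zpowers (c : P)).Normal := by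
    constructor
    intro n hn x
    have h := Subgroup.mem_center_iff.mp (hcen hn) x
    rw [h, mul_inv_cancel_right]
    exact hn
  refine ⟨(Subgroup.zpowers (c : P)).subtype.comp (e : Multiplicative (ZMod p) →* _), ?_, ?_, ?_, ?_⟩
  · intro a b hab
    exact e.injective (Subtype.ext hab)
  · intro a x
    exact (Subgroup.mem_center_iff.mp (hcen (e a).2) x).symm
  · rw [hrange]
    exact hnorm
  · rw [hrange]
    have h := Subgroup.card_eq_card_quotient_mul_card_subgroup (Subgroup.zpowers (c : P))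
    rw [hP, hC, pow_succ] at h
    exact (Nat.eq_of_mul_eq_mul_right hp.pos h).symm

/-- **Extension of homomorphisms.** -/
theorem exists_hom [IsTopologicalGroup G] {p : ℕ} [Fact p.Prime] {I κ : Type}
    {Z : I → Subgroup G} {g : κ → G} (hLG : LG p Z) (hH : H1 p Z g) (k : ℕ) :
    ∀ (P : Type) [Group P] [Finite P], Nat.card P = p ^ k →
      ∀ φ : (i : I) → Z i →* P, (∀ i, IsOpen ((φ i).ker : Set (Z i))) → ∀ t : κ → P,
        ∃ ψ : G →* P, IsOpen (ψ.ker : Set G) ∧ (∀ i, ∀ x : Z i, ψ (x : G) = φ i x) ∧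
          ∀ l, ψ (g l) = t l := by
  classical
  induction k with
  | zero =>
    intro P _ _ hP φ _ t
    have : Subsingleton P := by
      rw [pow_zero] at hP
      exact (Nat.card_eq_one_iff_unique.mp hP).1
    refine ⟨1, ?_, fun i x => Subsingleton.elim _ _, fun l => Subsingleton.elim _ _⟩
    rw [MonoidHom.ker_one]
    exact isOpen_univ
  | succ k ih =>
    intro P _ _ hP φ hφ t
    obtain ⟨ι, hι, hcom, hnorm, hcard⟩ := exists_center hP
    let C := ι.range
    have hC : C.Normal := hnorm
    have hfin : Finite (P ⧸ C) := inferInstance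
    let π : P →* P ⧸ C := QuotientGroup.mk' C
    have hπ : ∀ x y : P, π x = π y → ∃ a : Multiplicative (ZMod p), x = ι a * y := by
      intro x y hxy
      have h1 : x * y⁻¹ ∈ C := by
        rw [← QuotientGroup.eq_one_iff]
        change π (x * y⁻¹) = 1
        rw [map_mul, map_inv, hxy, mul_inv_cancel]
      obtain ⟨a, ha⟩ := h1
      exact ⟨a, by rw [ha, inv_mul_cancel_right]⟩
    have hπι : ∀ a, π (ι a) = 1 := fun a => (QuotientGroup.eq_one_iff _).mpr ⟨a, rfl⟩
    obtain ⟨ψ₀, hψ₀, hψ₀Z, hψ₀g⟩ := ih (P ⧸ C) hcard (fun i => π.comp (φ i))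
      (fun i => Subgroup.isOpen_mono (fun x hx => by
        rw [MonoidHom.mem_ker] at hx ⊢
        rw [MonoidHom.comp_apply, hx, map_one]) (hφ i)) (fun l => π (t l))
    let s : P ⧸ C → P := Quotient.out
    have hs : ∀ q, π (s q) = q := fun q => Quotient.out_eq q
    -- the cocycle
    have hc0 : ∀ x y : G, ∃ a : Multiplicative (ZMod p),
        s (ψ₀ x) * s (ψ₀ y) = ι a * s (ψ₀ (x * y)) := fun x y => hπ _ _ (by
      rw [map_mul, hs, hs, hs, map_mul])
    choose c hc using hc0
    have hcoc : IsCoc p ψ₀.ker (fun x y => Multiplicative.toAdd (c x y)) := by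
      constructor
      · intro x y z
        apply Multiplicative.ofAdd.injective
        rw [ofAdd_add, ofAdd_add, ofAdd_toAdd, ofAdd_toAdd, ofAdd_toAdd, ofAdd_toAdd]
        apply hι
        rw [map_mul, map_mul]
        have h1 : ι (c x y) * ι (c (x * y) z) * s (ψ₀ (x * y * z)) =
            s (ψ₀ x) * s (ψ₀ y) * s (ψ₀ z) := by
          rw [mul_assoc, ← hc, ← mul_assoc, ← hc]
        have h2 : ι (c y z) * ι (c x (y * z)) * s (ψ₀ (x * y * z)) =
            s (ψ₀ x) * s (ψ₀ y) * s (ψ₀ z) := by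
          rw [mul_assoc, mul_assoc x y z, ← hc, ← mul_assoc, hcom, mul_assoc, mul_assoc, ← hc]
        exact mul_right_cancel (h1.trans h2.symm)
      · intro x y n hn m hm
        have h1 : ψ₀ (x * n) = ψ₀ x := by rw [map_mul, MonoidHom.mem_ker.mp hn, mul_one]
        have h2 : ψ₀ (y * m) = ψ₀ y := by rw [map_mul, MonoidHom.mem_ker.mp hm, mul_one]
        have h3 : ψ₀ (x * n * (y * m)) = ψ₀ (x * y) := by rw [map_mul, h1, h2, map_mul]
        have h4 := hc (x * n) (y * m)
        rw [h1, h2, h3, hc x y] at h4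
        have h5 : c (x * n) (y * m) = c x y := hι (mul_right_cancel h4).symm
        exact congrArg Multiplicative.toAdd h5
    have hlc₀ : IsLocallyConstant (ψ₀ : G → P ⧸ C) := isLocallyConstant_of_ker ψ₀ hψ₀
    have hcob : ∀ i, CobOn p (Z i) (fun x y => Multiplicative.toAdd (c x y)) := by
      intro i
      have h0 : ∀ x : Z i, ∃ a : Multiplicative (ZMod p), s (ψ₀ x) = ι a * φ i x := fun x =>
        hπ _ _ (by rw [hs, hψ₀Z]; rfl)
      let ρ' : (P ⧸ C) × P → Multiplicative (ZMod p) := fun q =>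
        if h : ∃ a, s q.1 = ι a * q.2 then h.choose else 1
      have hρ' : ∀ x : Z i, s (ψ₀ x) = ι (ρ' (ψ₀ x, φ i x)) * φ i x := by
        intro x
        have h := h0 x
        change s (ψ₀ x) = ι (if h : ∃ a, s (ψ₀ x) = ι a * φ i x then h.choose else 1) * φ i x
        rw [dif_pos h]
        exact h.choose_spec
      refine ⟨fun x => Multiplicative.toAdd (ρ' (ψ₀ x, φ i x)), ?_, ?_⟩
      · have h1 : IsLocallyConstant (fun x : Z i => ψ₀ (x : G)) :=
          hlc₀.comp_continuous continuous_subtype_val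
        have h2 : IsLocallyConstant (φ i : Z i → P) := isLocallyConstant_of_ker _ (hφ i)
        exact (h1.prodMk h2).comp (fun q => Multiplicative.toAdd (ρ' q))
      · intro x y
        apply Multiplicative.ofAdd.injective
        rw [ofAdd_sub, ofAdd_add]
        simp only [ofAdd_toAdd]
        apply hι
        rw [map_div, map_mul, eq_div_iff_mul_eq']
        have h1 := hc (x : G) (y : G)
        rw [hρ' x, hρ' y] at h1
        have h2 := hρ' (x * y)
        generalize ρ' (ψ₀ (x * y : Z i), φ i (x * y)) = w at h2 ⊢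
        generalize ρ' (ψ₀ x, φ i x) = u at h1 ⊢
        generalize ρ' (ψ₀ y, φ i y) = v at h1 ⊢
        rw [Subgroup.coe_mul] at h2
        rw [h2, map_mul (φ i)] at h1
        have h3 : ι u * φ i x * (ι v * φ i y) = ι u * ι v * (φ i x * φ i y) := by
          rw [mul_assoc, ← mul_assoc (φ i x), ← hcom, mul_assoc, mul_assoc]
        rw [h3, ← mul_assoc (ι (c x y))] at h1
        have h4 := mul_right_cancel h1
        exact h4.symm
    obtain ⟨ρ, hρ, hρc⟩ := hLG ψ₀.ker inferInstance hψ₀ _ hcoc hcob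
    -- the first lift
    let ψ₁ : G →* P := MonoidHom.mk' (fun x => (ι (Multiplicative.ofAdd (ρ x)))⁻¹ * s (ψ₀ x)) (by
      intro x y
      have h1 : c x y = Multiplicative.ofAdd (ρ x) * Multiplicative.ofAdd (ρ y) /
          Multiplicative.ofAdd (ρ (x * y)) := by
        rw [← ofAdd_add, ← ofAdd_sub, ← hρc x y, ofAdd_toAdd]
      have h2 := hc x y
      rw [h1, map_div, map_mul, div_eq_mul_inv] at h2
      have h5 : ∀ u v w : Multiplicative (ZMod p), ∀ a b d : P,
          a * b = ι u * ι v * (ι w)⁻¹ * d → (ι w)⁻¹ * d = (ι u)⁻¹ * a * ((ι v)⁻¹ * b) := by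
        intro u v w a b d h
        have h6 : (ι u)⁻¹ * a * ((ι v)⁻¹ * b) = (ι u)⁻¹ * (ι v)⁻¹ * (a * b) := by
          rw [← map_inv, ← map_inv, mul_assoc, ← mul_assoc a, ← hcom]
          simp only [mul_assoc]
        rw [h6, h]
        have h7 : ι u * ι v = ι v * ι u := hcom _ _
        rw [h7]
        group
      exact h5 _ _ _ _ _ _ h2)
    have hψ₁ : ∀ x, ψ₁ x = (ι (Multiplicative.ofAdd (ρ x)))⁻¹ * s (ψ₀ x) := fun x => rfl
    have hψ₁π : ∀ x, π (ψ₁ x) = ψ₀ x := by
      intro x
      rw [hψ₁, map_mul, map_inv, hπι, inv_one, one_mul, hs]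
    have hψ₁o : IsLocallyConstant (ψ₁ : G → P) :=
      (hρ.prodMk hlc₀).comp (fun q : ZMod p × (P ⧸ C) =>
        (ι (Multiplicative.ofAdd q.1))⁻¹ * s q.2)
    -- the correction
    have hf0 : ∀ i, ∀ x : Z i, ∃ a : Multiplicative (ZMod p), φ i x = ι a * ψ₁ x := fun i x =>
      hπ _ _ (by rw [hψ₁π, hψ₀Z]; rfl)
    choose f₀ hf₀ using hf0
    let f : (i : I) → Z i →* Multiplicative (ZMod p) := fun i => MonoidHom.mk' (f₀ i) (by
      intro x y
      apply hι
      have h1 := hf₀ i (x * y)
      rw [map_mul, hf₀ i x, hf₀ i y, Subgroup.coe_mul, map_mul] at h1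
      have h2 : ι (f₀ i x) * ψ₁ x * (ι (f₀ i y) * ψ₁ y) =
          ι (f₀ i x) * ι (f₀ i y) * (ψ₁ x * ψ₁ y) := by
        rw [mul_assoc, ← mul_assoc (ψ₁ (x : G)), ← hcom, mul_assoc, mul_assoc]
      rw [h2] at h1
      rw [map_mul]
      exact (mul_right_cancel h1).symm)
    have hf : ∀ i, IsOpen ((f i).ker : Set (Z i)) := by
      intro i
      have h1 : IsLocallyConstant (fun x : Z i => ψ₁ (x : G)) :=
        hψ₁o.comp_continuous continuous_subtype_val
      have h2 : IsLocallyConstant (φ i : Z i → P) := isLocallyConstant_of_ker _ (hφ i)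
      have h3 : ((f i).ker : Set (Z i)) = (fun x : Z i => (ψ₁ (x : G), φ i x)) ⁻¹'
          {q | q.1 = q.2} := by
        ext x
        constructor
        · intro hx
          have hx' : f₀ i x = 1 := hx
          have h4 := hf₀ i x
          rw [hx', map_one, one_mul] at h4
          exact h4.symm
        · intro hx
          have hx' : ψ₁ (x : G) = φ i x := hx
          have h4 := hf₀ i x
          rw [hx'] at h4
          have h5 : ι (f₀ i x) = 1 := mul_eq_right.mp h4.symm
          exact hι (by rw [map_one]; exact h5)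
      rw [h3]
      exact (h1.prodMk h2) _
    have ht0 : ∀ l, ∃ a : Multiplicative (ZMod p), t l = ι a * ψ₁ (g l) := fun l =>
      hπ _ _ (by rw [hψ₁π, hψ₀g])
    choose t' ht' using ht0
    obtain ⟨χ, hχ, hχZ, hχg⟩ := hH f hf t'
    refine ⟨MonoidHom.mk' (fun x => ι (χ x) * ψ₁ x) ?_, ?_, ?_, ?_⟩
    · intro x y
      have h6 : ∀ a b : Multiplicative (ZMod p), ∀ u v : P,
          ι a * ι b * (u * v) = ι a * u * (ι b * v) := by
        intro a b u v
        rw [mul_assoc (ι a) (ι b), ← mul_assoc (ι b) u v, hcom b u]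
        simp only [mul_assoc]
      rw [map_mul, map_mul, map_mul]
      exact h6 _ _ _ _
    · apply ker_isOpen_of_isLocallyConstant
      exact ((isLocallyConstant_of_ker χ hχ).prodMk hψ₁o).comp
        (fun q : Multiplicative (ZMod p) × P => ι q.1 * q.2)
    · intro i x
      change ι (χ x) * ψ₁ x = φ i x
      rw [hχZ, hf₀ i x]
      rfl
    · intro l
      change ι (χ (g l)) * ψ₁ (g l) = t l
      rw [hχg, ht' l]

end Pool.Agent.Helper59.EA
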