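import Mathlib
import Pool.Graph.R_seed8.Y469.EP.Max
import Pool.Agent.Helper66.ETC.Defs

set_option autoImplicit false

/-! # The field of S17141 is closed under `p`-th roots -/

namespace Pool.Agent.Helper59.EA

open IntermediateField Polynomial Pool.Agent.Y469.EP Pool.Agent.ETC

section

variable {F E : Type*} [Field F] [Field E] [Algebra F E]

lemma Tw_iSup {p : ℕ} (hp : p.Prime) [Normal F E] {ι : Type*} [Finite ι]
    (L : ι → IntermediateField F E) (h : ∀ i, Tw p (L i)) : Tw p (⨆ i, L i) := by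
  classical
  have := Fintype.ofFinite ι
  rw [← Finset.sup_univ_eq_iSup]
  exact Finset.sup_induction (Tw_bot p) (fun a ha b hb => Tw_sup hp ha hb) (fun i _ => h i)

/-- `p`-th roots of elements of a finite Galois `p`-extension are in such an extension -/
lemma exists_Tw_root {p : ℕ} (hp : p.Prime) {ζ : F} (hζ : IsPrimitiveRoot ζ p) [Normal F E]
    [IsAlgClosed E] (L : IntermediateField F E) (hL : Tw p L) (x : E) (hx : x ∈ L) (y : E)
    (hy : y ^ p = x) : ∃ M : IntermediateField F E, Tw p M ∧ y ∈ M := by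
  obtain ⟨hfd, hgal, k, hk⟩ := hL
  have : Finite (L ≃ₐ[F] L) := inferInstance
  have hroot : ∀ σ : L ≃ₐ[F] L, ∃ z : E, z ^ p = (σ ⟨x, hx⟩ : E) := fun σ =>
    IsAlgClosed.exists_pow_nat_eq _ hp.pos
  choose z hz using hroot
  have hζL : IsPrimitiveRoot (algebraMap F L ζ) p :=
    hζ.map_of_injective (algebraMap F L).injective
  have hnE : Normal L E := Normal.tower_top_of_normal F L E
  let M' : IntermediateField L E := ⨆ σ, L⟮z σ⟯
  have hTw : Tw p M' := Tw_iSup hp _ fun σ => Tw_root hp hζL (z σ) (σ ⟨x, hx⟩) (hz σ)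
  obtain ⟨hfd', hgal', k', hk'⟩ := hTw
  have hzM : ∀ σ, z σ ∈ M' := fun σ =>
    (le_iSup (fun σ => L⟮z σ⟯) σ) (mem_adjoin_simple_self L (z σ))
  let M : IntermediateField F E := M'.restrictScalars F
  have hML : ∀ l : L, (l : E) ∈ M := fun l => M'.algebraMap_mem l
  have hzM' : ∀ σ, z σ ∈ M := hzM
  have hMadj : M = adjoin F ((L : Set E) ∪ Set.range z) := by
    apply le_antisymm
    · have h1 : M' ≤ adjoin L (Set.range z) := by
        refine iSup_le fun σ => ?_
        rw [adjoin_simple_le_iff]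
        exact subset_adjoin L _ ⟨σ, rfl⟩
      have h2 : M ≤ (adjoin L (Set.range z)).restrictScalars F := fun a ha => h1 ha
      rwa [restrictScalars_adjoin] at h2
    · rw [adjoin_le_iff]
      rintro a (ha | ⟨σ, rfl⟩)
      · exact hML ⟨a, ha⟩
      · exact hzM' σ
  have hyM : y ∈ M := by
    have h1 : y ^ p = z 1 ^ p := by
      rw [hy, hz 1]
      rfl
    obtain ⟨i, hi⟩ := root_eq hp hζ y (z 1) h1
    rw [hi]
    exact mul_mem (M.algebraMap_mem _) (hzM' 1)
  have hfdM : FiniteDimensional F M := by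
    have h1 : FiniteDimensional L M' := hfd'
    have h2 : FiniteDimensional F M' := FiniteDimensional.trans F L M'
    exact h2
  have hsepM : Algebra.IsSeparable F M := by
    have h1 : Algebra.IsSeparable L M' := inferInstance
    have h2 : Algebra.IsSeparable F L := inferInstance
    have h3 : Algebra.IsSeparable F M' := Algebra.IsSeparable.trans F L M'
    exact h3
  have hnM : Normal F M := by
    rw [normal_iff_forall_map_le']
    intro τ
    rw [hMadj, adjoin_map, adjoin_le_iff]
    have hnL : Normal F L := inferInstance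
    have hτL : ∀ a : E, ∀ ha : a ∈ L, τ a = (τ.restrictNormal L ⟨a, ha⟩ : E) := fun a ha =>
      (AlgEquiv.restrictNormal_commutes τ L ⟨a, ha⟩).symm
    rw [← hMadj]
    rintro _ ⟨a, ha | ⟨σ, rfl⟩, rfl⟩
    · change τ a ∈ M
      rw [hτL a ha]
      exact hML _
    · change τ (z σ) ∈ M
      have h1 : (τ (z σ)) ^ p = z (τ.restrictNormal L * σ) ^ p := by
        rw [← map_pow, hz σ, hz, hτL _ (σ ⟨x, hx⟩).2]
        rfl
      obtain ⟨i, hi⟩ := root_eq hp hζ (τ (z σ)) (z (τ.restrictNormal L * σ)) h1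
      rw [hi]
      exact mul_mem (M.algebraMap_mem _) (hzM' _)
  refine ⟨M, ⟨hfdM, { to_isSeparable := hsepM, to_normal := hnM }, k + k', ?_⟩, hyM⟩
  have h1 : Module.finrank F L * Module.finrank L M' = Module.finrank F M' :=
    Module.finrank_mul_finrank F L M'
  rw [pow_add, ← hk, ← hk', h1]
  rfl

end

/-- **(a)** the field `K = F(p)` of S17141 -/
theorem pcl_of_max {p : ℕ} (hp : p.Prime) {F : Type} [Field F]
    (hζ : ∃ ζ : F, IsPrimitiveRoot ζ p) {K : IntermediateField F (AlgebraicClosure F)}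
    (hK : K = sSup {L : IntermediateField F (AlgebraicClosure F) |
      FiniteDimensional F L ∧ IsGalois F L ∧ ∃ k : ℕ, Module.finrank F L = p ^ k}) :
    PCl p F K := by
  obtain ⟨hgal, hex, -⟩ := t_MAX' p hp F hζ K hK
  obtain ⟨ζ, hζ⟩ := hζ
  refine ⟨hgal, ?_, ?_⟩
  · intro x
    obtain ⟨L, hxL, h1, h2, k, hk⟩ := hex x
    -- lift to the algebraic closure
    let L₀ : IntermediateField F (AlgebraicClosure F) := IntermediateField.lift L
    let e : L ≃ₐ[F] L₀ := IntermediateField.liftAlgEquiv L
    have hTw : Tw p L₀ := by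
      refine ⟨LinearEquiv.finiteDimensional e.toLinearEquiv, IsGalois.of_algEquiv e, k, ?_⟩
      rw [← hk]
      exact (LinearEquiv.finrank_eq e.toLinearEquiv).symm
    have hx0 : (x : AlgebraicClosure F) ∈ L₀ := (IntermediateField.mem_lift x).mpr hxL
    obtain ⟨y, hy⟩ := IsAlgClosed.exists_pow_nat_eq (x : AlgebraicClosure F) (n := p) hp.pos
    obtain ⟨M, hM, hyM⟩ := exists_Tw_root hp hζ L₀ hTw x hx0 y hy
    have hMK : M ≤ K := by
      rw [hK]
      exact le_sSup hM
    exact ⟨⟨y, hMK hyM⟩, Subtype.ext hy⟩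
  · intro L hfd hL
    have hKn : Normal F K := inferInstance
    -- `L` is contained in a finite Galois extension of `p`-power degree
    let b := Module.finBasis F L
    choose N hN using hex
    let N' : IntermediateField F K := ⨆ i, N (b i)
    have hN' : Tw p N' := Tw_iSup hp _ fun i => (hN (b i)).2
    have hle : L ≤ N' := by
      intro x hx
      have h0 := congrArg Subtype.val (b.sum_repr ⟨x, hx⟩)
      change _ = x at h0
      rw [← h0, IntermediateField.coe_sum]
      refine sum_mem fun i _ => ?_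
      rw [IntermediateField.coe_smul]
      exact N'.smul_mem ((le_iSup (fun i => N (b i)) i) (hN (b i)).1)
    obtain ⟨h1, h2, k, hk⟩ := hN'
    have h3 : Module.finrank F L ∣ p ^ k := by
      rw [← hk, finrank_eq_index L, finrank_eq_index N']
      exact Subgroup.index_dvd_of_le (IntermediateField.fixingSubgroup_antitone hle)
    obtain ⟨j, _, hj⟩ := (Nat.dvd_prime_pow hp).1 h3
    exact ⟨j, hj⟩

end Pool.Agent.Helper59.EA
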