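import Mathlib
import Pool.Agent.Helper59.EA.Lift

set_option autoImplicit false

/-! # Generation of pro-`p` groups, and the choice of free generators -/

namespace Pool.Agent.Helper59.EA

open Subgroup

variable {G : Type} [Group G] [TopologicalSpace G]

/-- every open normal subgroup has `p`-power index -/
def ProP (p : ℕ) (G : Type) [Group G] [TopologicalSpace G] : Prop :=
  ∀ N : Subgroup G, N.Normal → IsOpen (N : Set G) → ∃ k : ℕ, N.index = p ^ k

/-- a proper subgroup of a finite `p`-group is in the kernel of a nonzero character -/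
lemma exists_char {p : ℕ} [Fact p.Prime] {Q : Type} [Group Q] [Finite Q] (hQ : IsPGroup p Q)
    (E : Subgroup Q) (hE : E ≠ ⊤) : ∃ χ : Q →* Multiplicative (ZMod p), χ ≠ 1 ∧ ∀ x ∈ E, χ x = 1 := by
  have hnil : Group.IsNilpotent Q := hQ.isNilpotent
  obtain ⟨M, hM, hEM⟩ := (eq_top_or_exists_le_coatom E).resolve_left hE
  have hMn : M.Normal := Subgroup.NormalizerCondition.normal_of_coatom M
    Group.normalizerCondition_of_isNilpotent hM
  have hQM : IsPGroup p (Q ⧸ M) := hQ.to_quotient M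
  have hnt : Nontrivial (Q ⧸ M) := by
    rw [← not_subsingleton_iff_nontrivial]
    intro h
    exact hM.1 (QuotientGroup.subgroup_eq_top_of_subsingleton M h)
  have hdvd : p ∣ Nat.card (Q ⧸ M) := by
    obtain ⟨m, hm⟩ := IsPGroup.iff_card.mp hQM
    have h2 : 1 < Nat.card (Q ⧸ M) := Finite.one_lt_card
    rw [hm] at h2 ⊢
    have : m ≠ 0 := by
      rintro rfl
      simp at h2
    exact dvd_pow_self p this
  obtain ⟨q, hq⟩ := exists_prime_orderOf_dvd_card' (G := Q ⧸ M) p hdvd
  have hq1 : q ≠ 1 := by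
    rintro rfl
    rw [orderOf_one] at hq
    exact (Fact.out : p.Prime).one_lt.ne hq
  have hgen : Subgroup.zpowers q = ⊤ := by
    have h1 : M < (Subgroup.zpowers q).comap (QuotientGroup.mk' M) := by
      refine lt_of_le_of_ne ?_ ?_
      · intro x hx
        rw [Subgroup.mem_comap]
        have : QuotientGroup.mk' M x = 1 := (QuotientGroup.eq_one_iff x).mpr hx
        rw [this]
        exact one_mem _
      · intro h
        obtain ⟨y, rfl⟩ := QuotientGroup.mk'_surjective M q
        have hy : y ∈ (Subgroup.zpowers (QuotientGroup.mk' M y)).comap (QuotientGroup.mk' M) :=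
          Subgroup.mem_comap.mpr (Subgroup.mem_zpowers _)
        rw [← h] at hy
        exact hq1 ((QuotientGroup.eq_one_iff y).mpr hy)
    have h2 := hM.2 _ h1
    rw [eq_top_iff]
    intro z _
    obtain ⟨y, rfl⟩ := QuotientGroup.mk'_surjective M z
    have hy : y ∈ (Subgroup.zpowers q).comap (QuotientGroup.mk' M) := by
      rw [h2]
      exact Subgroup.mem_top y
    exact hy
  have hcyc : IsCyclic (Q ⧸ M) := ⟨⟨q, fun z => by
    have : z ∈ Subgroup.zpowers q := by
      rw [hgen]
      exact Subgroup.mem_top z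
    exact this⟩⟩
  have hcard : Nat.card (Q ⧸ M) = p := by
    rw [← hq, ← Nat.card_zpowers, hgen, Subgroup.card_top]
  have he : Nonempty (Multiplicative (ZMod p) ≃* (Q ⧸ M)) := by
    have h : Multiplicative (ZMod (Nat.card (Q ⧸ M))) ≃* (Q ⧸ M) := zmodCyclicMulEquiv hcyc
    rw [hcard] at h
    exact ⟨h⟩
  obtain ⟨e⟩ := he
  refine ⟨(e.symm : (Q ⧸ M) →* _).comp (QuotientGroup.mk' M), ?_, ?_⟩
  · intro h
    obtain ⟨y, hy⟩ := QuotientGroup.mk'_surjective M q
    have h1 := DFunLike.congr_fun h y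
    have h2 : e.symm (QuotientGroup.mk' M y) = 1 := h1
    rw [hy] at h2
    exact hq1 ((MulEquiv.map_eq_one_iff e.symm).mp h2)
  · intro x hx
    have h1 : QuotientGroup.mk' M x = 1 := (QuotientGroup.eq_one_iff x).mpr (hEM hx)
    change e.symm (QuotientGroup.mk' M x) = 1
    rw [h1, map_one]

/-- an open subgroup which is in the kernel of no nonzero character is everything -/
lemma eq_top_of_char [IsTopologicalGroup G] {p : ℕ} [Fact p.Prime] (hG : ProP p G) (E N : Subgroup G) [hNn : N.Normal]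
    (hN : IsOpen (N : Set G)) (hNE : N ≤ E)
    (h : ∀ χ : G →* Multiplicative (ZMod p), IsOpen (χ.ker : Set G) → (∀ x ∈ E, χ x = 1) →
      χ = 1) : E = ⊤ := by
  by_contra hE
  obtain ⟨k, hk⟩ := hG N hNn hN
  have hp : p.Prime := Fact.out
  have hfin : Finite (G ⧸ N) := by
    apply Nat.finite_of_card_ne_zero
    change N.index ≠ 0
    rw [hk]
    exact pow_ne_zero k hp.ne_zero
  have hQ : IsPGroup p (G ⧸ N) := IsPGroup.of_card (n := k) hk
  have hE' : E.map (QuotientGroup.mk' N) ≠ ⊤ := by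
    intro h1
    apply hE
    have h2 := congrArg (Subgroup.comap (QuotientGroup.mk' N)) h1
    rw [Subgroup.comap_map_eq, QuotientGroup.ker_mk', Subgroup.comap_top, sup_eq_left.mpr hNE] at h2
    exact h2
  obtain ⟨χ, hχ, hχE⟩ := exists_char hQ _ hE'
  apply hχ
  have h1 := h (χ.comp (QuotientGroup.mk' N)) ?_ ?_
  · refine MonoidHom.ext fun x => ?_
    obtain ⟨y, rfl⟩ := QuotientGroup.mk'_surjective N x
    exact DFunLike.congr_fun h1 y
  · refine Subgroup.isOpen_mono (H₁ := N) ?_ hN
    intro x hx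
    rw [MonoidHom.mem_ker]
    have h2 : QuotientGroup.mk' N x = 1 := (QuotientGroup.eq_one_iff x).mpr hx
    change χ (QuotientGroup.mk' N x) = 1
    rw [h2, map_one]
  · intro x hx
    exact hχE _ (Subgroup.mem_map_of_mem _ hx)

/-- only the trivial homomorphism to `ℤ/p` is trivial on the `Z i` and at the `g l` -/
def Inj (p : ℕ) {I κ : Type} (Z : I → Subgroup G) (g : κ → G) : Prop :=
  ∀ χ : G →* Multiplicative (ZMod p), IsOpen (χ.ker : Set G) → (∀ i, ∀ x ∈ Z i, χ x = 1) →
    (∀ l, χ (g l) = 1) → χ = 1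

/-- uniqueness -/
lemma hom_unique [IsTopologicalGroup G] {p : ℕ} [Fact p.Prime] (hG : ProP p G) {I κ : Type} {Z : I → Subgroup G}
    {g : κ → G} (hI : Inj p Z g) {P : Type} [Group P] (ψ ψ' : G →* P)
    (hψ : IsOpen (ψ.ker : Set G)) (hψ' : IsOpen (ψ'.ker : Set G))
    (h1 : ∀ i, ∀ x ∈ Z i, ψ x = ψ' x) (h2 : ∀ l, ψ (g l) = ψ' (g l)) : ψ = ψ' := by
  have h3 : MonoidHom.eqLocus ψ ψ' = ⊤ := by
    refine eq_top_of_char hG _ (ψ.ker ⊓ ψ'.ker) ?_ ?_ ?_
    · rw [Subgroup.coe_inf]
      exact hψ.inter hψ'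
    · intro x hx
      obtain ⟨hx1, hx2⟩ := Subgroup.mem_inf.mp hx
      change ψ x = ψ' x
      rw [MonoidHom.mem_ker.mp hx1, MonoidHom.mem_ker.mp hx2]
    · intro χ hχ hχE
      exact hI χ hχ (fun i x hx => hχE x (h1 i x hx)) (fun l => hχE _ (h2 l))
  ext x
  have : x ∈ MonoidHom.eqLocus ψ ψ' := by
    rw [h3]
    exact Subgroup.mem_top x
  exact this

section choice

variable (p : ℕ) [Fact p.Prime] {I : Type} (Z : I → Subgroup G)

/-- characters which are trivial on all `Z i`, as a vector space -/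
def Rad : Submodule (ZMod p) (G → ZMod p) where
  carrier := {f | (∀ x y, f (x * y) = f x + f y) ∧ IsLocallyConstant f ∧ ∀ i, ∀ x ∈ Z i, f x = 0}
  add_mem' := by
    rintro f g ⟨h1, h2, h3⟩ ⟨h4, h5, h6⟩
    refine ⟨fun x y => ?_, (h2.prodMk h5).comp (fun q => q.1 + q.2), fun i x hx => ?_⟩
    · simp only [Pi.add_apply, h1, h4]
      ring
    · rw [Pi.add_apply, h3 i x hx, h6 i x hx, add_zero]
  zero_mem' := ⟨fun _ _ => by simp, IsLocallyConstant.const 0, fun _ _ _ => rfl⟩
  smul_mem' := by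
    rintro c f ⟨h1, h2, h3⟩
    refine ⟨fun x y => ?_, h2.comp (fun q => c • q), fun i x hx => ?_⟩
    · simp only [Pi.smul_apply, h1, smul_eq_mul]
      ring
    · rw [Pi.smul_apply, h3 i x hx, smul_zero]

lemma mem_Rad {f : G → ZMod p} : f ∈ Rad p Z ↔ (∀ x y, f (x * y) = f x + f y) ∧
    IsLocallyConstant f ∧ ∀ i, ∀ x ∈ Z i, f x = 0 := Iff.rfl

/-- the homomorphism to `ℤ/p` of an additive function -/
def toHom (f : G → ZMod p) (hf : ∀ x y, f (x * y) = f x + f y) : G →* Multiplicative (ZMod p) :=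
  MonoidHom.mk' (fun x => Multiplicative.ofAdd (f x)) (fun x y => by rw [hf]; rfl)

omit [TopologicalSpace G] in
lemma toHom_apply (f : G → ZMod p) (hf : ∀ x y, f (x * y) = f x + f y) (x : G) :
    toHom p f hf x = Multiplicative.ofAdd (f x) := rfl

lemma finite_Rad (hfg : ∃ S : Finset G, Dense ((Subgroup.closure (S : Set G) : Set G))) :
    FiniteDimensional (ZMod p) (Rad p Z) := by
  obtain ⟨S, hS⟩ := hfg
  let r : Rad p Z →ₗ[ZMod p] (S → ZMod p) :=
    { toFun := fun f s => (f : G → ZMod p) s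
      map_add' := fun _ _ => rfl
      map_smul' := fun _ _ => rfl }
  refine FiniteDimensional.of_injective r ?_
  rw [injective_iff_map_eq_zero]
  intro f hf
  obtain ⟨h1, h2, h3⟩ := (mem_Rad p Z).mp f.2
  ext x
  change (f : G → ZMod p) x = 0
  let χ := toHom p (f : G → ZMod p) h1
  have h4 : Subgroup.closure (S : Set G) ≤ χ.ker := by
    rw [Subgroup.closure_le]
    intro s hs
    change χ s = 1
    have h5 : (f : G → ZMod p) s = 0 := congrFun hf ⟨s, hs⟩
    change Multiplicative.ofAdd ((f : G → ZMod p) s) = 1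
    rw [h5]
    rfl
  obtain ⟨y, hy1, hy2⟩ := hS.inter_open_nonempty _ (h2.isOpen_fiber ((f : G → ZMod p) x))
    ⟨x, rfl⟩
  have h6 : χ y = 1 := h4 hy2
  have h7 : (f : G → ZMod p) y = 0 := congrArg Multiplicative.toAdd h6
  exact hy1.symm.trans h7

/-- **Choice of the free generators.** -/
theorem exists_gens (hfg : ∃ S : Finset G, Dense ((Subgroup.closure (S : Set G) : Set G)))
    (hsurj : ∀ f : (i : I) → Z i →* Multiplicative (ZMod p),
      (∀ i, IsOpen ((f i).ker : Set (Z i))) → ∃ χ : G →* Multiplicative (ZMod p),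
        IsOpen (χ.ker : Set G) ∧ ∀ i, ∀ x : Z i, χ (x : G) = f i x) [IsTopologicalGroup G] :
    ∃ (m : ℕ) (g : Fin m → G), H1 p Z g ∧ Inj p Z g := by
  have hfd := finite_Rad p Z hfg
  let ev : G → Module.Dual (ZMod p) (Rad p Z) := fun x =>
    { toFun := fun f => (f : G → ZMod p) x
      map_add' := fun _ _ => rfl
      map_smul' := fun _ _ => rfl }
  have hspan : Submodule.span (ZMod p) (Set.range ev) = ⊤ := by
    by_contra h
    obtain ⟨Φ, hΦ, hle⟩ := Submodule.exists_le_ker_of_lt_top _ (lt_top_iff_ne_top.mpr h)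
    apply hΦ
    obtain ⟨f, rfl⟩ := (Module.evalEquiv (ZMod p) (Rad p Z)).surjective Φ
    have hf : f = 0 := by
      ext x
      have h1 : ev x ∈ LinearMap.ker (Module.evalEquiv (ZMod p) (Rad p Z) f) :=
        hle (Submodule.subset_span ⟨x, rfl⟩)
      exact h1
    rw [hf, map_zero]
  obtain ⟨κ, a, -, hspan', hli⟩ := exists_linearIndependent' (ZMod p) ev
  rw [hspan] at hspan'
  let b : Module.Basis κ (ZMod p) (Module.Dual (ZMod p) (Rad p Z)) :=
    Module.Basis.mk hli (by rw [hspan'])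
  have hb : ∀ k, b k = ev (a k) := fun k => by
    rw [Module.Basis.mk_apply]
    rfl
  have hκ : Finite κ := Module.Finite.finite_basis b
  obtain ⟨m, ⟨e⟩⟩ := Finite.exists_equiv_fin κ
  refine ⟨m, fun l => a (e.symm l), ?_, ?_⟩
  · intro f hf t
    obtain ⟨χ₀, hχ₀, hχ₀Z⟩ := hsurj f hf
    let Φ : Module.Dual (ZMod p) (Module.Dual (ZMod p) (Rad p Z)) :=
      b.constr (ZMod p) (fun k => Multiplicative.toAdd (t (e k) / χ₀ (a k)))
    obtain ⟨r, hr⟩ := (Module.evalEquiv (ZMod p) (Rad p Z)).surjective Φ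
    have hr' : ∀ k, (r : G → ZMod p) (a k) = Multiplicative.toAdd (t (e k) / χ₀ (a k)) := by
      intro k
      have h1 : Φ (b k) = Multiplicative.toAdd (t (e k) / χ₀ (a k)) := b.constr_basis _ _ k
      rw [← hr, hb] at h1
      exact h1
    obtain ⟨h1, h2, h3⟩ := (mem_Rad p Z).mp r.2
    refine ⟨χ₀ * toHom p (r : G → ZMod p) h1, ?_, ?_, ?_⟩
    · apply ker_isOpen_of_isLocallyConstant
      exact ((isLocallyConstant_of_ker χ₀ hχ₀).prodMk h2).comp
        (fun q : Multiplicative (ZMod p) × ZMod p => q.1 * Multiplicative.ofAdd q.2)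
    · intro i x
      rw [MonoidHom.mul_apply, hχ₀Z, toHom_apply, h3 i x x.2, ofAdd_zero, mul_one]
    · intro l
      rw [MonoidHom.mul_apply, toHom_apply, hr', ofAdd_toAdd, Equiv.apply_symm_apply]
      exact mul_div_cancel _ _
  · intro χ hχ h1 h2
    have hlc := isLocallyConstant_of_ker χ hχ
    let r : Rad p Z := ⟨fun x => Multiplicative.toAdd (χ x),
      fun x y => congrArg Multiplicative.toAdd (map_mul χ x y), hlc.comp Multiplicative.toAdd,
      fun i x hx => congrArg Multiplicative.toAdd (h1 i x hx)⟩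
    have hr : r = 0 := by
      rw [← Module.forall_dual_apply_eq_zero_iff (ZMod p)]
      intro φ
      have h3 : Module.evalEquiv (ZMod p) (Rad p Z) r = 0 := by
        apply b.ext
        intro k
        rw [hb]
        change Multiplicative.toAdd (χ (a k)) = 0
        have h4 : χ (a (e.symm (e k))) = 1 := h2 (e k)
        rw [Equiv.symm_apply_apply] at h4
        rw [h4]
        rfl
      have h4 := LinearMap.congr_fun h3 φ
      exact h4
    ext x
    have h5 : (r : G → ZMod p) x = 0 := by rw [hr]; rfl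
    exact h5

end choice

end Pool.Agent.Helper59.EA
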