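import Mathlib
import Pool.Agent.Helper59.EA.Frat

set_option autoImplicit false

/-! # The closed subgroup generated by a free generator is `ℤ_p`; the abstract assembly -/

namespace Pool.Agent.Helper59.EA

open Subgroup

variable {G : Type} [Group G] [TopologicalSpace G] [IsTopologicalGroup G]

/-- compatible systems -/
def Compat (p : ℕ) : Subring ((n : ℕ) → ZMod (p ^ n)) where
  carrier := {u | ∀ m n : ℕ, ∀ h : m ≤ n, ZMod.castHom (pow_dvd_pow p h) (ZMod (p ^ m)) (u n) = u m}
  mul_mem' := by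
    intro a b ha hb m n h
    rw [Pi.mul_apply, Pi.mul_apply, map_mul, ha m n h, hb m n h]
  one_mem' := by
    intro m n h
    rw [Pi.one_apply, Pi.one_apply, map_one]
  add_mem' := by
    intro a b ha hb m n h
    rw [Pi.add_apply, Pi.add_apply, map_add, ha m n h, hb m n h]
  zero_mem' := by
    intro m n h
    rw [Pi.zero_apply, Pi.zero_apply, map_zero]
  neg_mem' := by
    intro a ha m n h
    rw [Pi.neg_apply, Pi.neg_apply, map_neg, ha m n h]

lemma exists_padic {p : ℕ} [Fact p.Prime] (u : (n : ℕ) → ZMod (p ^ n))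
    (hu : ∀ m n : ℕ, ∀ h : m ≤ n, ZMod.castHom (pow_dvd_pow p h) (ZMod (p ^ m)) (u n) = u m) :
    ∃ z : ℤ_[p], ∀ n, PadicInt.toZModPow n z = u n := by
  let f : (k : ℕ) → Compat p →+* ZMod (p ^ k) := fun k =>
    (Pi.evalRingHom (fun n => ZMod (p ^ n)) k).comp (Compat p).subtype
  have hf : ∀ (k1 k2 : ℕ) (hk : k1 ≤ k2),
      (ZMod.castHom (pow_dvd_pow p hk) (ZMod (p ^ k1))).comp (f k2) = f k1 := by
    intro k1 k2 hk
    ext x
    exact x.2 k1 k2 hk
  refine ⟨PadicInt.lift hf ⟨u, hu⟩, fun n => ?_⟩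
  have h := PadicInt.lift_spec hf n
  exact RingHom.congr_fun h ⟨u, hu⟩

/-- **Procyclic factors.** -/
theorem zp_of {p : ℕ} [Fact p.Prime] [CompactSpace G] [T2Space G] [TotallyDisconnectedSpace G]
    (hG : ProP p G) (g : G)
    (ψ : (n : ℕ) → G →* Multiplicative (ZMod (p ^ n))) (hψ : ∀ n, IsOpen ((ψ n).ker : Set G))
    (hg : ∀ n, ψ n g = Multiplicative.ofAdd 1)
    (hc : ∀ m n : ℕ, ∀ h : m ≤ n, ∀ x : G, ZMod.castHom (pow_dvd_pow p h) (ZMod (p ^ m))
      (Multiplicative.toAdd (ψ n x)) = Multiplicative.toAdd (ψ m x)) :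
    Nonempty ((Subgroup.zpowers g).topologicalClosure ≃ₜ* Multiplicative (PadicInt p)) := by
  have hp : p.Prime := Fact.out
  choose Φ hΦ using fun x : G => exists_padic (p := p) (fun n => Multiplicative.toAdd (ψ n x))
    (fun m n h => hc m n h x)
  let Ψ : G →* Multiplicative (PadicInt p) := MonoidHom.mk' (fun x => Multiplicative.ofAdd (Φ x)) (by
    intro x y
    rw [← ofAdd_add]
    congr 1
    rw [← PadicInt.ext_of_toZModPow]
    intro n
    rw [map_add, hΦ, hΦ, hΦ, map_mul]
    rfl)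
  have hΨ : ∀ x, Multiplicative.toAdd (Ψ x) = Φ x := fun x => rfl
  have hcont : Continuous Ψ := by
    apply continuous_of_continuousAt_one
    rw [ContinuousAt, map_one]
    have h1 : Filter.Tendsto Φ (nhds 1) (nhds 0) := by
      rw [Metric.tendsto_nhds]
      intro ε hε
      obtain ⟨n, hn⟩ := PadicInt.exists_pow_neg_lt p hε
      have h2 : ((ψ n).ker : Set G) ∈ nhds (1 : G) := (hψ n).mem_nhds (one_mem _)
      filter_upwards [h2] with x hx
      rw [dist_zero_right]
      refine lt_of_le_of_lt ?_ hn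
      rw [PadicInt.norm_le_pow_iff_mem_span_pow, ← PadicInt.ker_toZModPow, RingHom.mem_ker, hΦ]
      have hx' : ψ n x = 1 := hx
      rw [hx']
      rfl
    exact h1
  have hgz : ∀ m : ℤ, Φ (g ^ m) = (m : ℤ_[p]) := by
    intro m
    rw [← PadicInt.ext_of_toZModPow]
    intro n
    rw [hΦ, map_zpow, hg, ← ofAdd_zsmul, toAdd_ofAdd, map_intCast, zsmul_one]
  let H := (Subgroup.zpowers g).topologicalClosure
  have hHc : IsClosed (H : Set G) := Subgroup.isClosed_topologicalClosure _
  have hHcp : CompactSpace H := isCompact_iff_compactSpace.mp hHc.isCompact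
  let f : H →* Multiplicative (PadicInt p) := Ψ.comp H.subtype
  have hfc : Continuous f := hcont.comp continuous_subtype_val
  have hdense : ∀ (x : G), x ∈ H → ∀ U : Set G, IsOpen U → x ∈ U → ∃ m : ℤ, g ^ m ∈ U := by
    intro x hx U hU hxU
    have h1 : x ∈ _root_.closure (Subgroup.zpowers g : Set G) := hx
    obtain ⟨y, hy1, hy2⟩ := mem_closure_iff.mp h1 U hU hxU
    obtain ⟨m, rfl⟩ := hy2
    exact ⟨m, hy1⟩
  have hsurj : Function.Surjective f := by
    have h1 : IsClosed (Set.range f) := (isCompact_range hfc).isClosed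
    have h2 : Set.range (fun m : ℤ => Multiplicative.ofAdd (m : ℤ_[p])) ⊆ Set.range f := by
      rintro _ ⟨m, rfl⟩
      have hm : g ^ m ∈ H := Subgroup.le_topologicalClosure _ (Subgroup.zpow_mem_zpowers g m)
      refine ⟨⟨g ^ m, hm⟩, ?_⟩
      change Multiplicative.ofAdd (Φ (g ^ m)) = _
      rw [hgz]
    have h3 : DenseRange (fun m : ℤ => Multiplicative.ofAdd (m : ℤ_[p])) :=
      PadicInt.denseRange_intCast (p := p)
    have h4 : Set.range f = Set.univ := by
      rw [Set.eq_univ_iff_forall]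
      intro y
      have h5 : y ∈ _root_.closure (Set.range f) := closure_mono h2 (h3 y)
      rwa [h1.closure_eq] at h5
    intro y
    have : y ∈ Set.range f := by rw [h4]; trivial
    exact this
  have hinj : Function.Injective f := by
    rw [injective_iff_map_eq_one]
    intro x hx
    by_contra hne
    have hne' : (x : G) ≠ 1 := fun h => hne (Subtype.ext h)
    have hΦx : Φ (x : G) = 0 := congrArg Multiplicative.toAdd hx
    obtain ⟨N, hN⟩ := ProfiniteGrp.exist_openNormalSubgroup_sub_open_nhds_of_one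
      (U := {(x : G)}ᶜ) isOpen_compl_singleton (by
        intro h
        exact hne' h.symm)
    have hNo : IsOpen ((N : Subgroup G) : Set G) := N.isOpen'
    have hNn : (N : Subgroup G).Normal := N.isNormal'
    obtain ⟨k, hk⟩ := hG (N : Subgroup G) hNn hNo
    let U : Set G := (fun y => (x : G)⁻¹ * y) ⁻¹' (((N : Subgroup G) : Set G) ∩ ((ψ k).ker : Set G))
    have hU : IsOpen U := (hNo.inter (hψ k)).preimage (continuous_const.mul continuous_id)
    have hxU : (x : G) ∈ U := by
      have h0 : (x : G)⁻¹ * (x : G) ∈ ((N : Subgroup G) : Set G) ∩ ((ψ k).ker : Set G) := by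
        rw [inv_mul_cancel]
        exact ⟨one_mem _, one_mem _⟩
      exact h0
    obtain ⟨m, hm⟩ := hdense x x.2 U hU hxU
    have hm1 : (x : G)⁻¹ * g ^ m ∈ (N : Subgroup G) := hm.1
    have hm2 : ψ k ((x : G)⁻¹ * g ^ m) = 1 := hm.2
    have hψx : ψ k (x : G) = 1 := by
      have h1 := hΦ (x : G) k
      rw [hΦx, map_zero] at h1
      exact congrArg Multiplicative.ofAdd h1.symm
    rw [map_mul, map_inv, hψx, inv_one, one_mul, map_zpow, hg, ← ofAdd_zsmul] at hm2
    have hm3 : ((m : ℤ) : ZMod (p ^ k)) = 0 := by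
      have h1 := congrArg Multiplicative.toAdd hm2
      rw [toAdd_ofAdd, zsmul_one] at h1
      exact h1
    rw [ZMod.intCast_zmod_eq_zero_iff_dvd] at hm3
    have hgm : g ^ m ∈ (N : Subgroup G) := by
      rw [← QuotientGroup.eq_one_iff]
      change QuotientGroup.mk' (N : Subgroup G) (g ^ m) = 1
      rw [map_zpow]
      obtain ⟨c, rfl⟩ := hm3
      rw [zpow_mul]
      have h1 : (QuotientGroup.mk' (N : Subgroup G) g) ^ ((p ^ k : ℕ) : ℤ) = 1 := by
        rw [zpow_natCast, ← hk]
        exact pow_card_eq_one'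
      rw [h1, one_zpow]
    have hxN : (x : G) ∈ (N : Subgroup G) := by
      have h1 := mul_mem hgm (inv_mem hm1)
      rwa [mul_inv_rev, inv_inv, ← mul_assoc, mul_inv_cancel, one_mul] at h1
    exact hN hxN rfl
  let e : H ≃* Multiplicative (PadicInt p) := MulEquiv.ofBijective f ⟨hinj, hsurj⟩
  have he : Continuous e.toEquiv := hfc
  exact ⟨{ e with
    continuous_toFun := hfc
    continuous_invFun := (he.homeoOfEquivCompactToT2).continuous_invFun }⟩

/-- **Abstract assembly.** -/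
theorem assembly {p : ℕ} [Fact p.Prime] [CompactSpace G] [T2Space G] [TotallyDisconnectedSpace G]
    (hG : ProP p G) (hfg : ∃ S : Finset G, Dense ((Subgroup.closure (S : Set G) : Set G)))
    {I : Type} [Finite I] (Z : I → Subgroup G) (hZ : ∀ i, IsClosed (Z i : Set G))
    (hsurj : ∀ f : (i : I) → Z i →* Multiplicative (ZMod p),
      (∀ i, IsOpen ((f i).ker : Set (Z i))) → ∃ χ : G →* Multiplicative (ZMod p),
        IsOpen (χ.ker : Set G) ∧ ∀ i, ∀ x : Z i, χ (x : G) = f i x)
    (hLG : LG p Z) :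
    ∃ (n : ℕ) (H : Fin n → Subgroup G),
      (∀ i, IsClosed (H i : Set G)) ∧
      (∀ (P : Type) [Group P] [Finite P], (∃ k : ℕ, Nat.card P = p ^ k) →
        ∀ φ : (i : Fin n) → (H i →* P), (∀ i, IsOpen ((φ i).ker : Set (H i))) →
          ∃! ψ : G →* P, IsOpen (ψ.ker : Set G) ∧ ∀ i, ∀ x : H i, ψ (x : G) = φ i x) ∧
      (∀ i, Nonempty (H i ≃ₜ* Multiplicative (PadicInt p)) ∨ ∃ j, H i = Z j) := by
  classical
  obtain ⟨m, g, hH, hI⟩ := exists_gens p Z hfg hsurj
  obtain ⟨r, ⟨e⟩⟩ := Finite.exists_equiv_fin (I ⊕ Fin m)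
  let H₀ : I ⊕ Fin m → Subgroup G :=
    Sum.elim Z (fun l => (Subgroup.zpowers (g l)).topologicalClosure)
  have hp : p.Prime := Fact.out
  -- the universal property for the family `H₀`
  have huniv : ∀ (P : Type) [Group P] [Finite P], (∃ k : ℕ, Nat.card P = p ^ k) →
      ∀ φ : (i : I ⊕ Fin m) → (H₀ i →* P), (∀ i, IsOpen ((φ i).ker : Set (H₀ i))) →
        ∃! ψ : G →* P, IsOpen (ψ.ker : Set G) ∧ ∀ i, ∀ x : H₀ i, ψ (x : G) = φ i x := by
    intro P _ _ hP φ hφ
    obtain ⟨k, hk⟩ := hP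
    have hgm : ∀ l, g l ∈ H₀ (Sum.inr l) := fun l =>
      Subgroup.le_topologicalClosure _ (Subgroup.mem_zpowers (g l))
    obtain ⟨ψ, hψ, hψZ, hψg⟩ := exists_hom hLG hH k P hk (fun i => φ (Sum.inl i))
      (fun i => hφ (Sum.inl i)) (fun l => φ (Sum.inr l) ⟨g l, hgm l⟩)
    refine ⟨ψ, ⟨hψ, ?_⟩, ?_⟩
    · rintro (i | l) x
      · exact hψZ i x
      · -- both sides are continuous homomorphisms on the closure
        obtain ⟨V, hV, hVk⟩ := isOpen_induced_iff.mp (hφ (Sum.inr l))
        have h1 : (1 : G) ∈ V := by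
          have : (1 : H₀ (Sum.inr l)) ∈ Subtype.val ⁻¹' V := by
            rw [hVk]
            exact one_mem _
          exact this
        let U : Set G := (fun y => (x : G)⁻¹ * y) ⁻¹' (V ∩ (ψ.ker : Set G))
        have hU : IsOpen U := (hV.inter hψ).preimage (continuous_const.mul continuous_id)
        have hx : (x : G) ∈ _root_.closure (Subgroup.zpowers (g l) : Set G) := x.2
        have hxU : (x : G) ∈ U := by
          have h0 : (x : G)⁻¹ * (x : G) ∈ V ∩ (ψ.ker : Set G) := by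
            rw [inv_mul_cancel]
            exact ⟨h1, one_mem _⟩
          exact h0
        obtain ⟨y, hy1, hy2⟩ := mem_closure_iff.mp hx U hU hxU
        obtain ⟨t, rfl⟩ := hy2
        have hgt : g l ^ t ∈ H₀ (Sum.inr l) := zpow_mem (hgm l) t
        have h2 : x⁻¹ * (⟨g l ^ t, hgt⟩ : H₀ (Sum.inr l)) ∈ (φ (Sum.inr l)).ker := by
          have : x⁻¹ * (⟨g l ^ t, hgt⟩ : H₀ (Sum.inr l)) ∈
              ((φ (Sum.inr l)).ker : Set (H₀ (Sum.inr l))) := by
            rw [← hVk]
            exact hy1.1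
          exact this
        rw [MonoidHom.mem_ker, map_mul, map_inv, inv_mul_eq_one] at h2
        have h3 : ψ ((x : G)⁻¹ * g l ^ t) = 1 := hy1.2
        rw [map_mul, map_inv, inv_mul_eq_one] at h3
        rw [h3, h2, map_zpow, hψg]
        have h4 : (⟨g l ^ t, hgt⟩ : H₀ (Sum.inr l)) = (⟨g l, hgm l⟩ : H₀ (Sum.inr l)) ^ t :=
          Subtype.ext (by rw [Subgroup.coe_zpow])
        rw [h4, map_zpow]
    · rintro ψ' ⟨hψ', hψ'H⟩
      refine hom_unique hG hI ψ' ψ hψ' hψ ?_ ?_
      · intro i x hx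
        rw [hψZ i ⟨x, hx⟩]
        exact hψ'H (Sum.inl i) ⟨x, hx⟩
      · intro l
        rw [hψg l]
        exact hψ'H (Sum.inr l) ⟨g l, hgm l⟩
  have hclosed : ∀ i, IsClosed (H₀ i : Set G) := by
    rintro (i | l)
    · exact hZ i
    · exact Subgroup.isClosed_topologicalClosure _
  have hkind : ∀ i, Nonempty (H₀ i ≃ₜ* Multiplicative (PadicInt p)) ∨ ∃ j, H₀ i = Z j := by
    rintro (i | l)
    · exact Or.inr ⟨i, rfl⟩
    · left
      -- the procyclic factor
      have hex : ∀ n : ℕ, ∃ ψ : G →* Multiplicative (ZMod (p ^ n)), IsOpen (ψ.ker : Set G) ∧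
          (∀ i, ∀ x : Z i, ψ (x : G) = 1) ∧ ∀ l', ψ (g l') =
            if l' = l then Multiplicative.ofAdd 1 else 1 := by
        intro n
        have : NeZero (p ^ n) := ⟨pow_ne_zero n hp.ne_zero⟩
        obtain ⟨ψ, h1, h2, h3⟩ := exists_hom hLG hH n (Multiplicative (ZMod (p ^ n))) (by
          rw [Nat.card_congr Multiplicative.toAdd, Nat.card_zmod]) (fun i => 1) (fun i => by
            rw [MonoidHom.ker_one]
            exact isOpen_univ) (fun l' => if l' = l then Multiplicative.ofAdd 1 else 1)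
        exact ⟨ψ, h1, fun i x => h2 i x, h3⟩
      choose ψ hψ hψZ hψg using hex
      refine zp_of hG (g l) ψ hψ (fun n => by rw [hψg, if_pos rfl]) ?_
      intro a b hab x
      have h1 : (AddMonoidHom.toMultiplicative
          (ZMod.castHom (pow_dvd_pow p hab) (ZMod (p ^ a))).toAddMonoidHom).comp (ψ b) = ψ a := by
        refine hom_unique hG hI _ _ ?_ (hψ a) ?_ ?_
        · refine Subgroup.isOpen_mono (H₁ := (ψ b).ker) ?_ (hψ b)
          intro y hy
          rw [MonoidHom.mem_ker] at hy ⊢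
          rw [MonoidHom.comp_apply, hy, map_one]
        · intro i y hy
          rw [MonoidHom.comp_apply, hψZ b i ⟨y, hy⟩, map_one, hψZ a i ⟨y, hy⟩]
        · intro l'
          rw [MonoidHom.comp_apply, hψg, hψg]
          split_ifs with h
          · change Multiplicative.ofAdd (ZMod.castHom (pow_dvd_pow p hab) (ZMod (p ^ a)) 1) = _
            rw [map_one]
          · rw [map_one]
      have h2 := DFunLike.congr_fun h1 x
      exact congrArg Multiplicative.toAdd h2
  refine ⟨r, fun j => H₀ (e.symm j), fun j => hclosed _, ?_, fun j => hkind _⟩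
  intro P _ _ hP φ hφ
  let Ψ := Equiv.piCongrLeft' (fun i => H₀ i →* P) e
  let φ' : (i : I ⊕ Fin m) → (H₀ i →* P) := Ψ.symm φ
  have hφ' : ∀ j, φ' (e.symm j) = φ j := fun j => congrFun (Ψ.apply_symm_apply φ) j
  obtain ⟨ψ, ⟨h1, h2⟩, h3⟩ := huniv P hP φ' (by
    intro i
    obtain ⟨j, rfl⟩ := e.symm.surjective i
    rw [hφ' j]
    exact hφ j)
  refine ⟨ψ, ⟨h1, ?_⟩, ?_⟩
  · intro j x
    rw [← hφ' j]
    exact h2 (e.symm j) x
  · rintro ψ' ⟨h4, h5⟩
    refine h3 ψ' ⟨h4, fun i => ?_⟩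
    obtain ⟨j, rfl⟩ := e.symm.surjective i
    intro x
    rw [hφ' j]
    exact h5 j x

end Pool.Agent.Helper59.EA
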