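import Mathlib
import Pool.Agent.Helper59.EA.Zp
import Pool.Agent.Helper59.EA.Max
import Pool.Agent.Helper95.EC.H90
import Pool.Graph.R_seed8.Y419.EP.Inert

set_option autoImplicit false

/-! # Kummer theory and the concrete assembly -/

namespace Pool.Agent.Helper59.EA

open Pool.Agent.ETC

section

variable {F K : Type} [Field F] [Field K] [Algebra F K] {p : ℕ} [hp : Fact p.Prime] {ζ : F}

omit [Algebra F K] in
lemma zeta_val_inj {z : K} (hz : IsPrimitiveRoot z p) {a b : ZMod p}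
    (h : z ^ a.val = z ^ b.val) : a = b := by
  have : NeZero p := ⟨hp.out.ne_zero⟩
  exact ZMod.val_injective p (hz.pow_inj (ZMod.val_lt a) (ZMod.val_lt b) h)

omit [Algebra F K] in
lemma zeta_val_add {z : K} (hz : z ^ p = 1) (a b : ZMod p) :
    z ^ (a + b).val = z ^ a.val * z ^ b.val := by
  have : NeZero p := ⟨hp.out.ne_zero⟩
  rw [ZMod.val_add, ← pow_add, ← pow_eq_pow_mod _ hz]

omit [Algebra F K] in
lemma exists_zmod {z : K} (hz : IsPrimitiveRoot z p) {x y : K} (hy : y ≠ 0)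
    (h : x ^ p = y ^ p) : ∃ a : ZMod p, x = z ^ a.val * y := by
  have : NeZero p := ⟨hp.out.ne_zero⟩
  have h1 : (x / y) ^ p = 1 := by rw [div_pow, h, div_self (pow_ne_zero _ hy)]
  obtain ⟨i, hi, hi'⟩ := hz.eq_pow_of_pow_eq_one h1
  refine ⟨(i : ZMod p), ?_⟩
  rw [ZMod.val_natCast, ← pow_eq_pow_mod _ hz.pow_eq_one, hi', div_mul_cancel₀ _ hy]

/-- **Kummer theory for closed subgroups.** -/
theorem kummer [IsGalois F K] (hζ : IsPrimitiveRoot ζ p) (Z : Subgroup (K ≃ₐ[F] K))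
    (hZ : IsClosed (Z : Set (K ≃ₐ[F] K))) (f : Z →* Multiplicative (ZMod p))
    (hf : IsOpen (f.ker : Set Z)) : ∃ β : K, β ≠ 0 ∧ ∀ σ : Z,
      (σ : K ≃ₐ[F] K) β = algebraMap F K ζ ^ (Multiplicative.toAdd (f σ)).val * β := by
  have hζK : IsPrimitiveRoot (algebraMap F K ζ) p :=
    hζ.map_of_injective (algebraMap F K).injective
  have hG := (Helper95.EC.Gal.of_isGalois F K).sub Z hZ
  obtain ⟨b, hb0, hb⟩ := Helper95.EC.h90 hG
    (fun σ : Z => algebraMap F K ζ ^ (Multiplicative.toAdd (f σ)).val)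
    ((isLocallyConstant_of_ker f hf).comp
      (fun i : Multiplicative (ZMod p) => algebraMap F K ζ ^ (Multiplicative.toAdd i).val))
    (fun σ => pow_ne_zero _ (hζK.ne_zero hp.out.ne_zero)) (by
      intro g k
      have h1 : g • (algebraMap F K ζ ^ (Multiplicative.toAdd (f k)).val) =
          algebraMap F K ζ ^ (Multiplicative.toAdd (f k)).val := by
        change (g : K ≃ₐ[F] K) _ = _
        rw [map_pow, AlgEquiv.commutes]
      change algebraMap F K ζ ^ (Multiplicative.toAdd (f (g * k))).val =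
        algebraMap F K ζ ^ (Multiplicative.toAdd (f g)).val *
          g • (algebraMap F K ζ ^ (Multiplicative.toAdd (f k)).val)
      rw [h1, map_mul, toAdd_mul, zeta_val_add hζK.pow_eq_one])
  refine ⟨b⁻¹, inv_ne_zero hb0, fun σ => ?_⟩
  have h1 : algebraMap F K ζ ^ (Multiplicative.toAdd (f σ)).val * (σ : K ≃ₐ[F] K) b = b := hb σ
  have h2 : (σ : K ≃ₐ[F] K) b ≠ 0 := by
    rw [map_ne_zero]
    exact hb0
  rw [map_inv₀, eq_mul_inv_iff_mul_eq₀ hb0, inv_mul_eq_iff_eq_mul₀ h2, mul_comm, h1]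

/-- the Kummer character of a `p`-th root of an element of `F` -/
theorem exists_char_of_root [IsGalois F K] (hζ : IsPrimitiveRoot ζ p) {y : F} {η : K} (hη0 : η ≠ 0)
    (hη : η ^ p = algebraMap F K y) : ∃ χ : (K ≃ₐ[F] K) →* Multiplicative (ZMod p),
      IsOpen (χ.ker : Set (K ≃ₐ[F] K)) ∧
      ∀ σ : K ≃ₐ[F] K, σ η = algebraMap F K ζ ^ (Multiplicative.toAdd (χ σ)).val * η := by
  have hζK : IsPrimitiveRoot (algebraMap F K ζ) p :=
    hζ.map_of_injective (algebraMap F K).injective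
  have h0 : ∀ σ : K ≃ₐ[F] K, ∃ a : ZMod p, σ η = algebraMap F K ζ ^ a.val * η := fun σ =>
    exists_zmod hζK hη0 (by rw [← map_pow, hη, AlgEquiv.commutes])
  choose a ha using h0
  have hinj : ∀ σ : K ≃ₐ[F] K, ∀ b : ZMod p, σ η = algebraMap F K ζ ^ b.val * η → a σ = b := by
    intro σ b hb
    refine zeta_val_inj hζK ?_
    rw [ha σ] at hb
    exact mul_right_cancel₀ hη0 hb
  refine ⟨MonoidHom.mk' (fun σ => Multiplicative.ofAdd (a σ)) ?_, ?_, fun σ => ha σ⟩
  · intro σ τ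
    rw [← ofAdd_add]
    congr 1
    apply hinj
    rw [AlgEquiv.mul_apply, ha τ, map_mul, map_pow, AlgEquiv.commutes, ha σ,
      zeta_val_add hζK.pow_eq_one]
    ring
  · have hfd : FiniteDimensional F (IntermediateField.adjoin F {η}) :=
      IntermediateField.adjoin.finiteDimensional (Algebra.IsIntegral.isIntegral η)
    refine Subgroup.isOpen_mono ?_ (IntermediateField.adjoin F {η}).fixingSubgroup_isOpen
    intro σ hσ
    rw [MonoidHom.mem_ker]
    have h1 : σ η = η := (IntermediateField.mem_fixingSubgroup_iff _ _).mp hσ η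
      (IntermediateField.mem_adjoin_simple_self F η)
    have h2 : a σ = 0 := hinj σ 0 (by rw [ZMod.val_zero, pow_zero, one_mul, h1])
    change Multiplicative.ofAdd (a σ) = 1
    rw [h2]
    rfl

/-- `Z` is a closed subgroup, and the elements of its fixed field are `t l ^ p` with `t` in `F*` -/
def Gen (p : ℕ) (Z : Subgroup (K ≃ₐ[F] K)) : Prop :=
  ∀ x : K, x ≠ 0 → (∀ σ ∈ Z, σ x = x) →
    ∃ (t : Fˣ) (l : K), (∀ σ ∈ Z, σ l = l) ∧ x = algebraMap F K (t : F) * l ^ p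

/-- elements of `T` are `p`-th powers in the fixed field of `Z` -/
def Loc (p : ℕ) (Z : Subgroup (K ≃ₐ[F] K)) (T : Subgroup Fˣ) : Prop :=
  ∀ t ∈ T, ∃ l : K, (∀ σ ∈ Z, σ l = l) ∧ l ^ p = algebraMap F K (t : F)

/-- **Prescribing characters.** -/
theorem hsurj_of [IsGalois F K] (hζ : IsPrimitiveRoot ζ p) (hroot : ∀ x : K, ∃ y : K, y ^ p = x)
    {I : Type} (Z : I → Subgroup (K ≃ₐ[F] K)) (T : I → Subgroup Fˣ)
    (hZ : ∀ i, IsClosed (Z i : Set (K ≃ₐ[F] K))) (hgen : ∀ i, Gen p (Z i))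
    (hloc : ∀ i, Loc p (Z i) (T i)) (honto : ∀ u : I → Fˣ, ∃ y : Fˣ, ∀ i, y / u i ∈ T i)
    (f : (i : I) → Z i →* Multiplicative (ZMod p)) (hf : ∀ i, IsOpen ((f i).ker : Set (Z i))) :
    ∃ χ : (K ≃ₐ[F] K) →* Multiplicative (ZMod p), IsOpen (χ.ker : Set (K ≃ₐ[F] K)) ∧
      ∀ i, ∀ x : Z i, χ (x : K ≃ₐ[F] K) = f i x := by
  have hζK : IsPrimitiveRoot (algebraMap F K ζ) p :=
    hζ.map_of_injective (algebraMap F K).injective
  have hp0 : p ≠ 0 := hp.out.ne_zero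
  choose β hβ0 hβ using fun i => kummer hζ (Z i) (hZ i) (f i) (hf i)
  have hfix : ∀ i, ∀ σ ∈ Z i, σ (β i ^ p) = β i ^ p := by
    intro i σ hσ
    rw [map_pow, hβ i ⟨σ, hσ⟩, mul_pow, ← pow_mul, mul_comm _ p, pow_mul, hζK.pow_eq_one, one_pow,
      one_mul]
  choose t l hl htl using fun i => hgen i (β i ^ p) (pow_ne_zero _ (hβ0 i)) (hfix i)
  obtain ⟨y, hy⟩ := honto t
  choose m hm hmy using fun i => hloc i _ (hy i)
  obtain ⟨η, hη⟩ := hroot (algebraMap F K (y : F))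
  have hη0 : η ≠ 0 := by
    rintro rfl
    rw [zero_pow hp0] at hη
    have : (y : F) = 0 := (algebraMap F K).injective (by rw [← hη, map_zero])
    exact y.ne_zero this
  obtain ⟨χ, hχ, hχη⟩ := exists_char_of_root hζ hη0 hη
  refine ⟨χ, hχ, fun i x => ?_⟩
  have hl0 : l i ≠ 0 := by
    intro h
    have h1 := htl i
    rw [h, zero_pow hp0, mul_zero] at h1
    exact pow_ne_zero p (hβ0 i) h1
  have ht0 : algebraMap F K (t i : F) ≠ 0 := by
    rw [map_ne_zero]
    exact (t i).ne_zero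
  have h1 : η ^ p = (m i * β i / l i) ^ p := by
    rw [hη, div_pow, mul_pow, hmy i, htl i, Units.val_div_eq_div_val, map_div₀]
    field_simp
  have h2 : m i * β i / l i ≠ 0 := by
    intro h
    rw [h, zero_pow hp0] at h1
    exact pow_ne_zero p hη0 h1
  obtain ⟨k, hk⟩ := exists_zmod hζK h2 h1
  have h3 : (x : K ≃ₐ[F] K) η = algebraMap F K ζ ^ (Multiplicative.toAdd (f i x)).val * η := by
    rw [hk, map_mul, map_pow, AlgEquiv.commutes, map_div₀, map_mul, hm i x x.2, hβ i x,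
      hl i x x.2]
    ring
  rw [hχη] at h3
  have h4 := zeta_val_inj hζK (mul_right_cancel₀ hη0 h3)
  exact congrArg Multiplicative.ofAdd h4

omit hp in
/-- `Gal(K/F)` is a pro-`p` group -/
theorem proP [IsGalois F K] (h : PCl p F K) : ProP p (K ≃ₐ[F] K) := by
  intro N hN hNo
  have hNc : IsClosed (N : Set (K ≃ₐ[F] K)) := Subgroup.isClosed_of_isOpen N hNo
  let N' : ClosedSubgroup (K ≃ₐ[F] K) := ⟨N, hNc⟩
  have h1 : (IntermediateField.fixedField N).fixingSubgroup = N :=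
    InfiniteGalois.fixingSubgroup_fixedField N'
  have h2 : FiniteDimensional F (IntermediateField.fixedField N) := by
    rw [← InfiniteGalois.isOpen_iff_finite, h1]
    exact hNo
  have h3 : IsGalois F (IntermediateField.fixedField N) := by
    rw [← InfiniteGalois.normal_iff_isGalois, h1]
    exact hN
  obtain ⟨k, hk⟩ := h.pgp _ h2 h3
  refine ⟨k, ?_⟩
  rw [← hk, Pool.Agent.Y469.EP.finrank_eq_index, h1]

/-- **Nontrivial inertia** at a place whose value group is not `p`-divisible. `hV1`: the fixed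
field of the decomposition group is an immediate extension. -/
theorem inert [IsGalois F K] (hζ : IsPrimitiveRoot ζ p) (hroot : ∀ x : K, ∃ y : K, y ^ p = x)
    (W : ValuationSubring K) (hD : IsClosed (Dec F W : Set (K ≃ₐ[F] K)))
    (hV1 : ∀ x : K, x ≠ 0 → (∀ σ ∈ Dec F W, σ x = x) → ∃ f : Fˣ, ∃ m : K,
      W.valuation m < 1 ∧ x = algebraMap F K (f : F) * (1 + m))
    (hnu : ∃ c : Fˣ, ∀ f : Fˣ, W.valuation (algebraMap F K ((c * f ^ p : Fˣ) : F)) ≠ 1) :
    ∃ σ ∈ Dec F W, σ ≠ 1 ∧ ∀ x : K, W.valuation x ≤ 1 → W.valuation (σ x - x) < 1 := by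
  obtain ⟨c, hc⟩ := hnu
  have hp0 : p ≠ 0 := hp.out.ne_zero
  let L : IntermediateField F K := IntermediateField.fixedField (Dec F W)
  have hLfix : L.fixingSubgroup = Dec F W :=
    InfiniteGalois.fixingSubgroup_fixedField ⟨Dec F W, hD⟩
  have hGL : IsGalois L K := inferInstance
  have hres : ∀ τ : K ≃ₐ[L] K, τ.restrictScalars F ∈ Dec F W := by
    intro τ
    rw [← hLfix, IntermediateField.mem_fixingSubgroup_iff]
    intro x hx
    exact τ.commutes ⟨x, hx⟩
  obtain ⟨y, hy⟩ := hroot (algebraMap F K (c : F))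
  have hζL : IsPrimitiveRoot (algebraMap F L ζ) p :=
    hζ.map_of_injective (algebraMap F L).injective
  obtain ⟨τ, hτ, hin⟩ := Pool.Agent.Y419.EP.t_INERT' p hp.out L K ⟨_, hζL⟩ W
    (fun τ x => hres τ x) (algebraMap F L (c : F)) y (by
      rw [Ne, map_eq_zero]
      exact c.ne_zero) (by rw [hy]; rfl) (by
      intro f hf h1 h2
      have hf0 : (f : K) ≠ 0 := fun h => hf (Subtype.ext h)
      obtain ⟨g, m, hm, hgm⟩ := hV1 (f : K) hf0 (by
        intro σ hσ
        have := f.2 ⟨σ, hσ⟩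
        exact this)
      apply hc g
      have h3 : W.valuation (algebraMap L K (algebraMap F L (c : F) * f ^ p)) = 1 := by
        have h0 : algebraMap L K (algebraMap F L (c : F) * f ^ p) ≠ 0 := by
          rw [Ne, map_eq_zero, mul_eq_zero, not_or, map_eq_zero]
          exact ⟨c.ne_zero, pow_ne_zero _ hf⟩
        apply le_antisymm
        · exact (W.valuation_le_one_iff _).2 h1
        · have h4 := (W.valuation_le_one_iff _).2 h2
          rw [map_inv₀, map_inv₀] at h4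
          rwa [inv_le_one₀ (by rw [zero_lt_iff, Valuation.ne_zero_iff]; exact h0)] at h4
      have h5 : algebraMap L K (algebraMap F L (c : F) * f ^ p) =
          algebraMap F K ((c * g ^ p : Fˣ) : F) * (1 + m) ^ p := by
        rw [map_mul, map_pow]
        change algebraMap F K (c : F) * (f : K) ^ p = _
        rw [hgm, Units.val_mul, Units.val_pow_eq_pow_val, map_mul, map_pow, mul_pow]
        ring
      rw [h5, map_mul, map_pow, W.valuation.map_one_add_of_lt hm, one_pow, mul_one] at h3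
      exact h3)
  refine ⟨τ.restrictScalars F, hres τ, ?_, ?_⟩
  · intro h
    apply hτ
    ext x
    have h1 := DFunLike.congr_fun h x
    exact h1
  · intro x hx
    exact hin x ((W.valuation_le_one_iff x).1 hx)

/-- the conclusion (ii) of S17141 for a decomposition group -/
theorem kind_two (W : ValuationSubring K) (h : ∃ σ ∈ Dec F W, σ ≠ 1 ∧
      ∀ x : K, W.valuation x ≤ 1 → W.valuation (σ x - x) < 1) :
    ∃ (Γ : Type) (_ : LinearOrderedCommGroupWithZero Γ) (w : Valuation K Γ),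
      (∀ σ : K ≃ₐ[F] K, σ ∈ Dec F W ↔ ∀ x : K, (w (σ x) ≤ 1 ↔ w x ≤ 1)) ∧
      ∃ σ ∈ Dec F W, σ ≠ 1 ∧ ∀ x : K, w x ≤ 1 → w (σ x - x) < 1 := by
  refine ⟨W.ValueGroup, inferInstance, W.valuation, ?_, h⟩
  intro σ
  rw [mem_Dec]
  constructor
  · intro h x
    rw [W.valuation_le_one_iff, W.valuation_le_one_iff]
    exact h x
  · intro h x
    rw [← W.valuation_le_one_iff, ← W.valuation_le_one_iff]
    exact h x

end

/-- **The concrete assembly.** -/
theorem conclusion {p : ℕ} [hp : Fact p.Prime] {F : Type} [Field F] {ζ : F}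
    (hζ : IsPrimitiveRoot ζ p) (K : IntermediateField F (AlgebraicClosure F))
    (hK : K = sSup {L : IntermediateField F (AlgebraicClosure F) |
        FiniteDimensional F L ∧ IsGalois F L ∧ ∃ k : ℕ, Module.finrank F L = p ^ k})
    (hfg : ∃ S : Finset (↥K ≃ₐ[F] ↥K),
        Dense ((Subgroup.closure (S : Set (↥K ≃ₐ[F] ↥K)) : Set (↥K ≃ₐ[F] ↥K))))
    {I : Type} [Finite I] (Z : I → Subgroup (↥K ≃ₐ[F] ↥K)) (T : I → Subgroup Fˣ)
    (hZ : ∀ i, IsClosed (Z i : Set (↥K ≃ₐ[F] ↥K))) (hgen : ∀ i, Gen p (Z i))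
    (hloc : ∀ i, Loc p (Z i) (T i)) (honto : ∀ u : I → Fˣ, ∃ y : Fˣ, ∀ i, y / u i ∈ T i)
    (hLG : LG p Z)
    (hkind : ∀ i, (∃ (Γ : Type) (_ : LinearOrderedCommGroupWithZero Γ) (w : Valuation (↥K) Γ),
            (∀ σ : ↥K ≃ₐ[F] ↥K, σ ∈ Z i ↔ ∀ x : ↥K, (w (σ x) ≤ 1 ↔ w x ≤ 1)) ∧
            ∃ σ ∈ Z i, σ ≠ 1 ∧ ∀ x : ↥K, w x ≤ 1 → w (σ x - x) < 1) ∨
          (p = 2 ∧ Nat.card (Z i) = 2)) :
    ∃ (n : ℕ) (H : Fin n → Subgroup (↥K ≃ₐ[F] ↥K)),
        (∀ i, IsClosed (H i : Set (↥K ≃ₐ[F] ↥K))) ∧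
        (∀ (P : Type) [Group P] [Finite P], (∃ k : ℕ, Nat.card P = p ^ k) →
          ∀ φ : (i : Fin n) → (H i →* P), (∀ i, IsOpen ((φ i).ker : Set (H i))) →
            ∃! ψ : (↥K ≃ₐ[F] ↥K) →* P,
              IsOpen (ψ.ker : Set (↥K ≃ₐ[F] ↥K)) ∧
              ∀ i, ∀ x : H i, ψ (x : ↥K ≃ₐ[F] ↥K) = φ i x) ∧
        (∀ i,
          Nonempty (H i ≃ₜ* Multiplicative (PadicInt p)) ∨
          (∃ (Γ : Type) (_ : LinearOrderedCommGroupWithZero Γ) (w : Valuation (↥K) Γ),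
            (∀ σ : ↥K ≃ₐ[F] ↥K, σ ∈ H i ↔ ∀ x : ↥K, (w (σ x) ≤ 1 ↔ w x ≤ 1)) ∧
            ∃ σ ∈ H i, σ ≠ 1 ∧ ∀ x : ↥K, w x ≤ 1 → w (σ x - x) < 1) ∨
          (p = 2 ∧ Nat.card (H i) = 2)) := by
  have hPCl : PCl p F K := pcl_of_max hp.out ⟨ζ, hζ⟩ hK
  have hgal : IsGalois F K := hPCl.gal
  obtain ⟨n, H, h1, h2, h3⟩ := assembly (proP hPCl) hfg Z hZ
    (hsurj_of hζ hPCl.root Z T hZ hgen hloc honto) hLG
  refine ⟨n, H, h1, h2, fun i => ?_⟩
  rcases h3 i with h | ⟨j, hj⟩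
  · exact Or.inl h
  · right
    rw [hj]
    exact hkind j

end Pool.Agent.Helper59.EA
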