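import Mathlib
import Pool.Agent.ETC.Base
import Pool.Agent.Helper66.ETC.V3
import Pool.Agent.Helper59.EA.Glue

set_option autoImplicit false

/-! # Decomposition groups and involutions as factors -/

namespace Pool.Agent.Helper59.EA

open Pool.Agent.ETC

/-! ### Conjugation -/

section

variable {G : Type} [Group G] [TopologicalSpace G]

/-- cocycles which are coboundaries on `Z` are coboundaries on the conjugates of `Z` -/
theorem cobOn_conj [IsTopologicalGroup G] {p : ℕ} {N : Subgroup G} (hN : N.Normal)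
    (hNo : IsOpen (N : Set G)) {c : G → G → ZMod p} (hc : IsCoc p N c) {Z Z' : Subgroup G} (g : G)
    (h : ∀ x ∈ Z', g⁻¹ * x * g ∈ Z) (hZ : CobOn p Z c) : CobOn p Z' c := by
  obtain ⟨ρ, hρ, hρc⟩ := hZ
  have hlc : IsLocallyConstant fun x : G => c x g - c g (g⁻¹ * x * g) := by
    rw [IsLocallyConstant.iff_exists_open]
    intro x
    refine ⟨(fun y => x⁻¹ * y) ⁻¹' (N : Set G),
      hNo.preimage (continuous_const.mul continuous_id), ?_, ?_⟩
    · simp
    · intro y hy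
      have h0 : x⁻¹ * y ∈ N := hy
      have h1 : y = x * (x⁻¹ * y) := by group
      have h2 : g⁻¹ * y * g = g⁻¹ * x * g * (g⁻¹ * (x⁻¹ * y) * g⁻¹⁻¹) := by group
      have h3 := hc.2 x g (x⁻¹ * y) h0 1 N.one_mem
      have h4 := hc.2 g (g⁻¹ * x * g) 1 N.one_mem _ (hN.conj_mem _ h0 g⁻¹)
      rw [mul_one, ← h1] at h3
      rw [mul_one, ← h2] at h4
      change c y g - c g (g⁻¹ * y * g) = c x g - c g (g⁻¹ * x * g)
      rw [h3, h4]
  have hcont : Continuous fun x : Z' => (⟨g⁻¹ * x * g, h x x.2⟩ : Z) := by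
    apply Continuous.subtype_mk
    exact (continuous_const.mul continuous_subtype_val).mul continuous_const
  obtain ⟨φ, hφ⟩ : ∃ φ : Z' → ZMod p, φ = fun x : Z' => ρ ⟨g⁻¹ * x * g, h x x.2⟩ :=
    ⟨_, rfl⟩
  have hφl : IsLocallyConstant φ := by
    rw [hφ]
    exact hρ.comp_continuous hcont
  refine ⟨fun x => φ x + (c x g - c g (g⁻¹ * x * g)),
    (hφl.prodMk (hlc.comp_continuous continuous_subtype_val)).comp
      (fun q : ZMod p × ZMod p => q.1 + q.2), ?_⟩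
  intro x y
  have h1 := hc.1 x y g
  have h2 := hc.1 x g (g⁻¹ * y * g)
  have h3 := hc.1 g (g⁻¹ * x * g) (g⁻¹ * y * g)
  have h4 := hρc ⟨g⁻¹ * x * g, h x x.2⟩ ⟨g⁻¹ * y * g, h y y.2⟩
  have e1 : (⟨g⁻¹ * x * g, h x x.2⟩ : Z) * ⟨g⁻¹ * y * g, h y y.2⟩ =
      ⟨g⁻¹ * (x * y : Z') * g, h _ (x * y).2⟩ := by
    apply Subtype.ext
    push_cast
    group
  rw [e1] at h4
  have e2 : g * (g⁻¹ * (y : G) * g) = y * g := by group
  have e3 : g * (g⁻¹ * (x : G) * g) = x * g := by group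
  have e4 : g⁻¹ * (x : G) * g * (g⁻¹ * y * g) = g⁻¹ * (x * y : Z') * g := by
    push_cast
    group
  rw [e2] at h2
  rw [e3, e4] at h3
  have h5 : c (g⁻¹ * x * g) (g⁻¹ * y * g) = φ x + φ y - φ (x * y) := by
    rw [hφ]
    exact h4
  change c x y = φ x + (c x g - c g (g⁻¹ * x * g)) + (φ y + (c y g - c g (g⁻¹ * y * g))) -
    (φ (x * y) + (c (x * y : Z') g - c g (g⁻¹ * (x * y : Z') * g)))
  have e5 : ((x * y : Z') : G) = x * y := rfl
  rw [e5] at h3 ⊢
  linear_combination h1 - h2 + h3 + h5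

/-- a local-global principle for a class of subgroups gives one for a covering family -/
theorem lg_of_cover [IsTopologicalGroup G] {p : ℕ} {I : Type} (Z : I → Subgroup G)
    (D : Subgroup G → Prop)
    (hD : ∀ N : Subgroup G, N.Normal → IsOpen (N : Set G) → ∀ c : G → G → ZMod p, IsCoc p N c →
      (∀ H : Subgroup G, D H → CobOn p H c) → Cob p c)
    (hcov : ∀ H : Subgroup G, D H → ∃ (i : I) (g : G), ∀ σ ∈ H, g⁻¹ * σ * g ∈ Z i) :
    LG p Z := by
  intro N hN hNo c hc hZ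
  refine hD N hN hNo c hc fun H hH => ?_
  obtain ⟨i, g, hg⟩ := hcov H hH
  exact cobOn_conj hN hNo hc g hg (hZ i)

end

/-! ### Decomposition groups -/

section

variable {F K : Type} [Field F] [Field K] [Algebra F K] {p : ℕ} {ζ : F}

theorem isClosed_apply [IsGalois F K] (x : K) (S : Set K) :
    IsClosed {σ : K ≃ₐ[F] K | σ x ∈ S} := by
  have hst := (Helper95.EC.Gal.of_isGalois F K).stab x
  rw [← isOpen_compl_iff, isOpen_iff_forall_mem_open]
  intro σ hσ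
  refine ⟨(fun τ => σ⁻¹ * τ) ⁻¹' {g : K ≃ₐ[F] K | g • x = x}, ?_,
    hst.preimage (continuous_const.mul continuous_id), ?_⟩
  · intro τ hτ h
    apply hσ
    have h1 : (σ⁻¹ * τ) x = x := hτ
    have h2 : τ x = σ x := by
      have h3 := congrArg σ h1
      rw [← AlgEquiv.mul_apply, mul_inv_cancel_left] at h3
      exact h3
    change σ x ∈ S
    rw [← h2]
    exact h
  · change (σ⁻¹ * σ) x = x
    rw [inv_mul_cancel]
    rfl

/-- decomposition groups are closed -/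
theorem dec_closed [IsGalois F K] (W : ValuationSubring K) :
    IsClosed (Dec F W : Set (K ≃ₐ[F] K)) := by
  have h1 : (Dec F W : Set (K ≃ₐ[F] K)) =
      ⋂ x : K, {σ : K ≃ₐ[F] K | σ x ∈ {y : K | y ∈ W ↔ x ∈ W}} := by
    ext σ
    rw [Set.mem_iInter]
    exact mem_Dec
  rw [h1]
  exact isClosed_iInter fun x => isClosed_apply x _

theorem t_PCLK : S_PCLK := fun _ _ _ _ hζ _ hK => pcl_of_max Fact.out hζ hK

/-- transfer of the condition on the value group -/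
theorem nu_transfer {W : ValuationSubring K}
    (h : ∃ c : Fˣ, ∀ f : Fˣ,
      (W.comap (algebraMap F K)).valuation ((c * f ^ p : Fˣ) : F) ≠ 1) :
    ∃ c : Fˣ, ∀ f : Fˣ, W.valuation (algebraMap F K ((c * f ^ p : Fˣ) : F)) ≠ 1 := by
  obtain ⟨c, hc⟩ := h
  refine ⟨c, fun f hf => hc f ?_⟩
  apply le_antisymm
  · rw [← le_one_iff]
    exact hf.le
  · have h1 := (le_iff_le W 1 ((c * f ^ p : Fˣ) : F)).1 (by rw [map_one, map_one]; exact hf.ge)
    rwa [map_one] at h1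

theorem t_INERT : S_INERT := by
  intro p hp F K _ _ _ ζ hζ hP W htop hnu
  have := hP.gal
  obtain ⟨σ, h1, h2, h3⟩ := inert hζ hP.root W (dec_closed W) (by
    intro x hx0 hx
    obtain ⟨f, m, -, hm, hxf⟩ := v1 hP hp.out hζ.pow_eq_one (hζ.ne_one hp.out.one_lt) htop hx0 hx
    refine ⟨f, m, lt_of_lt_of_le hm ?_, hxf⟩
    apply pow_le_one'
    rw [le_one_iff]
    exact lam_le hp.out.ne_zero hζ.pow_eq_one _) (nu_transfer hnu)
  exact ⟨σ, h1, h2, fun x hx => h3 x ((W.valuation_le_one_iff x).2 hx)⟩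

/-- the value group of a place is not `p`-divisible -/
theorem nu_of_pl (hp : p.Prime) {R : ValuationSubring F} (h : Pl p ζ R) :
    ∃ c : Fˣ, ∀ f : Fˣ, R.valuation ((c * f ^ p : Fˣ) : F) ≠ 1 := by
  rcases h with h | h
  · exact h.nu
  · obtain ⟨π, h1, h2, -, -⟩ := h.unif
    refine ⟨π, fun f hf => ?_⟩
    have hf0 : R.valuation (f : F) ≠ 0 := (Valuation.ne_zero_iff _).2 f.ne_zero
    have hπ0 : R.valuation (π : F) ≠ 0 := (Valuation.ne_zero_iff _).2 π.ne_zero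
    rw [Units.val_mul, Units.val_pow_eq_pow_val, map_mul, map_pow] at hf
    have h3 : R.valuation (π : F) = R.valuation ((f⁻¹ : Fˣ) : F) ^ p := by
      rw [Units.val_inv_eq_inv_val, map_inv₀, inv_pow]
      exact eq_inv_of_mul_eq_one_left hf
    have h4 : R.valuation ((f⁻¹ : Fˣ) : F) < 1 := by
      by_contra h5
      rw [not_lt] at h5
      have h6 : 1 ≤ R.valuation ((f⁻¹ : Fˣ) : F) ^ p := one_le_pow_of_one_le' h5 p
      rw [← h3] at h6
      exact not_lt.2 h6 h1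
    have h5 := h2 _ h4
    have h6 : R.valuation ((f⁻¹ : Fˣ) : F) ^ p < R.valuation ((f⁻¹ : Fˣ) : F) := by
      have h7 : R.valuation ((f⁻¹ : Fˣ) : F) ≠ 0 := (Valuation.ne_zero_iff _).2 (Units.ne_zero _)
      exact pow_lt_self_of_lt_one₀ (zero_lt_iff.2 h7) h4 hp.one_lt
    rw [← h3] at h6
    exact not_lt.2 h5 h6

variable [hp : Fact p.Prime]

omit hp in
theorem gen_dec (hp : p.Prime) (hζ : IsPrimitiveRoot ζ p) (h : PCl p F K) {W : ValuationSubring K}
    (htop : Top ζ (W.comap (algebraMap F K))) : Gen p (Dec F W) := by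
  intro x hx0 hx
  obtain ⟨t, l, hl, -, hx⟩ := v4 h hp hζ htop hx0 hx
  exact ⟨t, l, hl, hx⟩

omit hp in
theorem loc_dec (hp : p.Prime) (hζ : IsPrimitiveRoot ζ p) (h : PCl p F K) {W : ValuationSubring K}
    (htop : Top ζ (W.comap (algebraMap F K))) :
    Loc p (Dec F W) (TR p ζ (W.comap (algebraMap F K))) := fun t ht =>
  (v3 h hp hζ htop t).2 ht

theorem kind_dec (hζ : IsPrimitiveRoot ζ p) (h : PCl p F K) {W : ValuationSubring K}
    (htop : Top ζ (W.comap (algebraMap F K)))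
    (hnu : ∃ c : Fˣ, ∀ f : Fˣ, (W.comap (algebraMap F K)).valuation ((c * f ^ p : Fˣ) : F) ≠ 1) :
    ∃ (Γ : Type) (_ : LinearOrderedCommGroupWithZero Γ) (w : Valuation K Γ),
      (∀ σ : K ≃ₐ[F] K, σ ∈ Dec F W ↔ ∀ x : K, (w (σ x) ≤ 1 ↔ w x ≤ 1)) ∧
      ∃ σ ∈ Dec F W, σ ≠ 1 ∧ ∀ x : K, w x ≤ 1 → w (σ x - x) < 1 := by
  obtain ⟨σ, h1, h2, h3⟩ := t_INERT p F K ζ hζ h W htop hnu
  exact kind_two W ⟨σ, h1, h2, fun x hx => h3 x ((W.valuation_le_one_iff x).1 hx)⟩

end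

/-! ### Involutions -/

section

variable {F K : Type} [Field F] [Field K] [Algebra F K]

theorem inv_mem {τ : K ≃ₐ[F] K} (hτ : τ * τ = 1) {σ : K ≃ₐ[F] K} :
    σ ∈ Subgroup.zpowers τ ↔ σ = 1 ∨ σ = τ := by
  constructor
  · rintro ⟨n, rfl⟩
    change τ ^ n = 1 ∨ τ ^ n = τ
    have h2 : τ ^ (2 : ℤ) = 1 := by rw [zpow_two, hτ]
    rcases Int.even_or_odd' n with ⟨k, rfl | rfl⟩
    · left
      rw [zpow_mul, h2, one_zpow]
    · right
      rw [zpow_add, zpow_mul, h2, one_zpow, one_mul, zpow_one]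
  · rintro (rfl | rfl)
    · exact one_mem _
    · exact Subgroup.mem_zpowers _

theorem inv_fix {τ : K ≃ₐ[F] K} (hτ : τ * τ = 1) {x : K} (hx : τ x = x) :
    ∀ σ ∈ Subgroup.zpowers τ, σ x = x := by
  intro σ hσ
  rcases (inv_mem hτ).1 hσ with rfl | rfl
  · rfl
  · exact hx

theorem inv_closed [IsGalois F K] {τ : K ≃ₐ[F] K} (hτ : τ * τ = 1) :
    IsClosed (Subgroup.zpowers τ : Set (K ≃ₐ[F] K)) := by
  have h : (Subgroup.zpowers τ : Set (K ≃ₐ[F] K)) = {1, τ} := by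
    ext σ
    rw [SetLike.mem_coe, inv_mem hτ]
    rfl
  rw [h]
  exact (Set.toFinite _).isClosed

theorem inv_card {τ : K ≃ₐ[F] K} (hτ : τ * τ = 1) (h1 : τ ≠ 1) :
    Nat.card (Subgroup.zpowers τ) = 2 := by
  rw [Nat.card_zpowers]
  exact orderOf_eq_prime (by rw [pow_two, hτ]) h1

/-- `hsq`: the fixed elements of `τ` are squares of fixed elements up to the sign -/
theorem gen_inv {τ : K ≃ₐ[F] K} (hτ : τ * τ = 1)
    (hsq : ∀ x : K, τ x = x → ∃ y : K, τ y = y ∧ (x = y ^ 2 ∨ x = -y ^ 2)) :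
    Gen 2 (Subgroup.zpowers τ) := by
  intro x _ hx
  obtain ⟨y, hy, h | h⟩ := hsq x (hx τ (Subgroup.mem_zpowers τ))
  · exact ⟨1, y, inv_fix hτ hy, by rw [Units.val_one, map_one, one_mul, h]⟩
  · exact ⟨-1, y, inv_fix hτ hy, by
      rw [Units.val_neg, Units.val_one, map_neg, map_one, h]; ring⟩

end

end Pool.Agent.Helper59.EA
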