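import Mathlib
import Pool.Agent.Helper59.EA.Zp
import Pool.Agent.Helper59.EA.Glue
import Pool.Agent.Helper95.EC.Chi

set_option autoImplicit false

/-! # The assembly with the free part made explicit -/

namespace Pool.Agent.Helper59.EA

variable {G : Type} [Group G] [TopologicalSpace G] [IsTopologicalGroup G]

/-- **Abstract assembly**, with the generators of the free part. -/
theorem assembly2 {p : ℕ} [Fact p.Prime] [CompactSpace G] [T2Space G] [TotallyDisconnectedSpace G]
    (hG : ProP p G) (hfg : ∃ S : Finset G, Dense ((Subgroup.closure (S : Set G) : Set G)))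
    {I : Type} (Z : I → Subgroup G) (hZ : ∀ i, IsClosed (Z i : Set G))
    (hsurj : ∀ f : (i : I) → Z i →* Multiplicative (ZMod p),
      (∀ i, IsOpen ((f i).ker : Set (Z i))) → ∃ χ : G →* Multiplicative (ZMod p),
        IsOpen (χ.ker : Set G) ∧ ∀ i, ∀ x : Z i, χ (x : G) = f i x)
    (hLG : LG p Z) :
    ∃ (m : ℕ) (g : Fin m → G),
      (∀ i, IsClosed ((Sum.elim Z fun l => (Subgroup.zpowers (g l)).topologicalClosure :
        I ⊕ Fin m → Subgroup G) i : Set G)) ∧
      (∀ (P : Type) [Group P] [Finite P], (∃ k : ℕ, Nat.card P = p ^ k) →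
        ∀ φ : (i : I ⊕ Fin m) → ((Sum.elim Z fun l => (Subgroup.zpowers (g l)).topologicalClosure :
          I ⊕ Fin m → Subgroup G) i →* P),
          (∀ i, IsOpen ((φ i).ker : Set ((Sum.elim Z fun l =>
            (Subgroup.zpowers (g l)).topologicalClosure : I ⊕ Fin m → Subgroup G) i))) →
            ∃! ψ : G →* P, IsOpen (ψ.ker : Set G) ∧
              ∀ i, ∀ x : (Sum.elim Z fun l => (Subgroup.zpowers (g l)).topologicalClosure :
                I ⊕ Fin m → Subgroup G) i, ψ (x : G) = φ i x) ∧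
      ∀ l, Nonempty ((Subgroup.zpowers (g l)).topologicalClosure ≃ₜ*
        Multiplicative (PadicInt p)) := by
  classical
  obtain ⟨m, g, hH, hI⟩ := exists_gens p Z hfg hsurj
  let H₀ : I ⊕ Fin m → Subgroup G :=
    Sum.elim Z (fun l => (Subgroup.zpowers (g l)).topologicalClosure)
  have hp : p.Prime := Fact.out
  -- the universal property for the family `H₀`
  have huniv : ∀ (P : Type) [Group P] [Finite P], (∃ k : ℕ, Nat.card P = p ^ k) →
      ∀ φ : (i : I ⊕ Fin m) → (H₀ i →* P), (∀ i, IsOpen ((φ i).ker : Set (H₀ i))) →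
        ∃! ψ : G →* P, IsOpen (ψ.ker : Set G) ∧ ∀ i, ∀ x : H₀ i, ψ (x : G) = φ i x := by
    intro P _ _ hP φ hφ
    obtain ⟨k, hk⟩ := hP
    have hgm : ∀ l, g l ∈ H₀ (Sum.inr l) := fun l =>
      Subgroup.le_topologicalClosure _ (Subgroup.mem_zpowers (g l))
    obtain ⟨ψ, hψ, hψZ, hψg⟩ := exists_hom hLG hH k P hk (fun i => φ (Sum.inl i))
      (fun i => hφ (Sum.inl i)) (fun l => φ (Sum.inr l) ⟨g l, hgm l⟩)
    refine ⟨ψ, ⟨hψ, ?_⟩, ?_⟩
    · rintro (i | l) x
      · exact hψZ i x
      · -- both sides are continuous homomorphisms on the closure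
        obtain ⟨V, hV, hVk⟩ := isOpen_induced_iff.mp (hφ (Sum.inr l))
        have h1 : (1 : G) ∈ V := by
          have : (1 : H₀ (Sum.inr l)) ∈ Subtype.val ⁻¹' V := by
            rw [hVk]
            exact one_mem _
          exact this
        let U : Set G := (fun y => (x : G)⁻¹ * y) ⁻¹' (V ∩ (ψ.ker : Set G))
        have hU : IsOpen U := (hV.inter hψ).preimage (continuous_const.mul continuous_id)
        have hx : (x : G) ∈ _root_.closure (Subgroup.zpowers (g l) : Set G) := x.2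
        have hxU : (x : G) ∈ U := by
          have h0 : (x : G)⁻¹ * (x : G) ∈ V ∩ (ψ.ker : Set G) := by
            rw [inv_mul_cancel]
            exact ⟨h1, one_mem _⟩
          exact h0
        obtain ⟨y, hy1, hy2⟩ := mem_closure_iff.mp hx U hU hxU
        obtain ⟨t, rfl⟩ := hy2
        have hgt : g l ^ t ∈ H₀ (Sum.inr l) := zpow_mem (hgm l) t
        have h2 : x⁻¹ * (⟨g l ^ t, hgt⟩ : H₀ (Sum.inr l)) ∈ (φ (Sum.inr l)).ker := by
          have : x⁻¹ * (⟨g l ^ t, hgt⟩ : H₀ (Sum.inr l)) ∈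
              ((φ (Sum.inr l)).ker : Set (H₀ (Sum.inr l))) := by
            rw [← hVk]
            exact hy1.1
          exact this
        rw [MonoidHom.mem_ker, map_mul, map_inv, inv_mul_eq_one] at h2
        have h3 : ψ ((x : G)⁻¹ * g l ^ t) = 1 := hy1.2
        rw [map_mul, map_inv, inv_mul_eq_one] at h3
        rw [h3, h2, map_zpow, hψg]
        have h4 : (⟨g l ^ t, hgt⟩ : H₀ (Sum.inr l)) = (⟨g l, hgm l⟩ : H₀ (Sum.inr l)) ^ t :=
          Subtype.ext (by rw [Subgroup.coe_zpow])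
        rw [h4, map_zpow]
    · rintro ψ' ⟨hψ', hψ'H⟩
      refine hom_unique hG hI ψ' ψ hψ' hψ ?_ ?_
      · intro i x hx
        rw [hψZ i ⟨x, hx⟩]
        exact hψ'H (Sum.inl i) ⟨x, hx⟩
      · intro l
        rw [hψg l]
        exact hψ'H (Sum.inr l) ⟨g l, hgm l⟩
  have hclosed : ∀ i, IsClosed (H₀ i : Set G) := by
    rintro (i | l)
    · exact hZ i
    · exact Subgroup.isClosed_topologicalClosure _
  have hkind : ∀ l : Fin m,
      Nonempty ((Subgroup.zpowers (g l)).topologicalClosure ≃ₜ* Multiplicative (PadicInt p)) := by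
    intro l
    ·
      -- the procyclic factor
      have hex : ∀ n : ℕ, ∃ ψ : G →* Multiplicative (ZMod (p ^ n)), IsOpen (ψ.ker : Set G) ∧
          (∀ i, ∀ x : Z i, ψ (x : G) = 1) ∧ ∀ l', ψ (g l') =
            if l' = l then Multiplicative.ofAdd 1 else 1 := by
        intro n
        have : NeZero (p ^ n) := ⟨pow_ne_zero n hp.ne_zero⟩
        obtain ⟨ψ, h1, h2, h3⟩ := exists_hom hLG hH n (Multiplicative (ZMod (p ^ n))) (by
          rw [Nat.card_congr Multiplicative.toAdd, Nat.card_zmod]) (fun i => 1) (fun i => by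
            rw [MonoidHom.ker_one]
            exact isOpen_univ) (fun l' => if l' = l then Multiplicative.ofAdd 1 else 1)
        exact ⟨ψ, h1, fun i x => h2 i x, h3⟩
      choose ψ hψ hψZ hψg using hex
      refine zp_of hG (g l) ψ hψ (fun n => by rw [hψg, if_pos rfl]) ?_
      intro a b hab x
      have h1 : (AddMonoidHom.toMultiplicative
          (ZMod.castHom (pow_dvd_pow p hab) (ZMod (p ^ a))).toAddMonoidHom).comp (ψ b) = ψ a := by
        refine hom_unique hG hI _ _ ?_ (hψ a) ?_ ?_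
        · refine Subgroup.isOpen_mono (H₁ := (ψ b).ker) ?_ (hψ b)
          intro y hy
          rw [MonoidHom.mem_ker] at hy ⊢
          rw [MonoidHom.comp_apply, hy, map_one]
        · intro i y hy
          rw [MonoidHom.comp_apply, hψZ b i ⟨y, hy⟩, map_one, hψZ a i ⟨y, hy⟩]
        · intro l'
          rw [MonoidHom.comp_apply, hψg, hψg]
          split_ifs with h
          · change Multiplicative.ofAdd (ZMod.castHom (pow_dvd_pow p hab) (ZMod (p ^ a)) 1) = _
            rw [map_one]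
          · rw [map_one]
      have h2 := DFunLike.congr_fun h1 x
      exact congrArg Multiplicative.toAdd h2
  exact ⟨m, g, hclosed, huniv, hkind⟩

section

variable {F K : Type} [Field F] [Field K] [Algebra F K] {p : ℕ} [hp : Fact p.Prime] {ζ : F}

open Pool.Agent.ETC Pool.Agent.Helper95.EC

/-- if `F*/F*^p` is finite, then `Gal(F(p)/F)` is topologically finitely generated -/
theorem fg_of_finite (hζ : IsPrimitiveRoot ζ p) (hP : PCl p F K)
    (hfin : (powMonoidHom p : Fˣ →* Fˣ).range.index ≠ 0) :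
    ∃ S : Finset (K ≃ₐ[F] K),
      Dense ((Subgroup.closure (S : Set (K ≃ₐ[F] K)) : Set (K ≃ₐ[F] K))) := by
  classical
  have hgal : IsGalois F K := hP.gal
  have hfinQ : Finite (Fˣ ⧸ (powMonoidHom p : Fˣ →* Fˣ).range) :=
    Nat.finite_of_card_ne_zero hfin
  have h1 : (Set.range fun b : Fˣ => (chi p ζ b : (K ≃ₐ[F] K) → ZMod p)).Finite := by
    have h2 : (Set.range fun b : Fˣ => (chi p ζ b : (K ≃ₐ[F] K) → ZMod p)) ⊆
        Set.range fun q : Fˣ ⧸ (powMonoidHom p : Fˣ →* Fˣ).range =>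
          (chi p ζ q.out : (K ≃ₐ[F] K) → ZMod p) := by
      rintro _ ⟨b, rfl⟩
      refine ⟨(b : Fˣ ⧸ (powMonoidHom p : Fˣ →* Fˣ).range), ?_⟩
      obtain ⟨h, hh⟩ := QuotientGroup.mk_out_eq_mul (powMonoidHom p : Fˣ →* Fˣ).range b
      obtain ⟨c, hc⟩ := h.2
      funext g
      have hc' : (h : Fˣ) = c ^ p := hc.symm
      change chi p ζ ((b : Fˣ ⧸ (powMonoidHom p : Fˣ →* Fˣ).range)).out g = chi p ζ b g
      rw [hh, hc', chi_mul_left hP hζ, chi_pow_p hP hζ, add_zero]
    exact (Set.finite_range _).subset h2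
  have h2 : ∀ f : (K ≃ₐ[F] K) → ZMod p, ∃ s : K ≃ₐ[F] K, f ≠ 0 → f s ≠ 0 := by
    intro f
    by_cases hf : f = 0
    · exact ⟨1, fun h => absurd hf h⟩
    · obtain ⟨s, hs⟩ := Function.ne_iff.mp hf
      exact ⟨s, fun _ => hs⟩
  choose s hs using h2
  refine ⟨h1.toFinset.image s, ?_⟩
  rw [dense_iff_inter_open]
  rintro U hU ⟨x, hx⟩
  obtain ⟨N, hN⟩ := ProfiniteGrp.exist_openNormalSubgroup_sub_open_nhds_of_one
    (U := (fun y => x * y) ⁻¹' U) (hU.preimage (continuous_const.mul continuous_id)) (by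
      change x * 1 ∈ U
      rwa [mul_one])
  have hNo : IsOpen ((N : Subgroup (K ≃ₐ[F] K)) : Set (K ≃ₐ[F] K)) := N.isOpen'
  have hNn : (N : Subgroup (K ≃ₐ[F] K)).Normal := N.isNormal'
  have htop := eq_top_of_char (proP hP)
    (Subgroup.closure ((h1.toFinset.image s : Finset (K ≃ₐ[F] K)) : Set (K ≃ₐ[F] K)) ⊔
      (N : Subgroup (K ≃ₐ[F] K))) (N : Subgroup (K ≃ₐ[F] K)) hNo le_sup_right (by
      intro χ hχ hχ1
      obtain ⟨b, hb⟩ := chi_surj hP hζ (fun g => Multiplicative.toAdd (χ g))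
        (fun g h => by rw [map_mul, toAdd_mul])
        ((isLocallyConstant_of_ker χ hχ).comp Multiplicative.toAdd)
      by_contra hne
      have h3 : (chi p ζ b : (K ≃ₐ[F] K) → ZMod p) ≠ 0 := by
        intro h0
        apply hne
        ext g
        have h4 := hb g
        rw [h0] at h4
        exact congrArg Multiplicative.ofAdd h4.symm
      apply hs _ h3
      rw [hb]
      have h5 : s (chi p ζ b) ∈ Subgroup.closure
          ((h1.toFinset.image s : Finset (K ≃ₐ[F] K)) : Set (K ≃ₐ[F] K)) := by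
        apply Subgroup.subset_closure
        rw [Finset.mem_coe, Finset.mem_image]
        exact ⟨_, h1.mem_toFinset.2 ⟨b, rfl⟩, rfl⟩
      rw [hχ1 _ (Subgroup.mem_sup_left h5)]
      rfl)
  have hxt : x ∈ Subgroup.closure
      ((h1.toFinset.image s : Finset (K ≃ₐ[F] K)) : Set (K ≃ₐ[F] K)) ⊔
      (N : Subgroup (K ≃ₐ[F] K)) := by
    rw [htop]
    exact Subgroup.mem_top x
  rw [Subgroup.mem_sup_of_normal_right] at hxt
  obtain ⟨y, hy, z, hz, rfl⟩ := hxt
  refine ⟨y, ?_, hy⟩
  have h6 : y * z * z⁻¹ ∈ U := hN (inv_mem hz)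
  rwa [mul_inv_cancel_right] at h6

end

end Pool.Agent.Helper59.EA
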